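import Pool.Agent.H5.FL.Stm

set_option autoImplicit false

open MeasureTheory ProbabilityTheory Set
open scoped NNReal ENNReal

universe u

namespace H99.FL

open H5.FL

/-! ### continuity in the coordinates -/

section cont

variable {N : ℕ} {q : ℝ}

lemma cont_sm (hN : 2 ≤ N) (hSMD : S_SMD) (i : Fin N) : Continuous (fun ξ : Fin N → ℝ => sm ξ i) :=
  ((hSMD N hN).2.1 i).continuous

lemma cont_phi1_sm (hN : 2 ≤ N) (hq : q < 1) (hSMD : S_SMD) (hPHD : S_PHD) (i : Fin N) :
    Continuous (fun ξ : Fin N → ℝ => phi1 (N : ℝ) q (sm ξ i)) := by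
  have hNr : (2 : ℝ) ≤ (N : ℝ) := by exact_mod_cast hN
  rw [continuous_iff_continuousAt]
  intro ξ
  have h := (hPHD N q hNr hq _ (((hSMD N hN).1 ξ).1 i).1).2.continuousAt
  exact ContinuousAt.comp (f := fun ξ : Fin N → ℝ => sm ξ i) (g := phi1 (N : ℝ) q) h
    (cont_sm hN hSMD i).continuousAt

lemma cont_G1 (hN : 2 ≤ N) (hq : q < 1) (hSMD : S_SMD) (hPHD : S_PHD) (j : Fin N) :
    Continuous (fun ξ : Fin N → ℝ => G1 N q ξ j) := by
  unfold G1
  refine (cont_sm hN hSMD j).mul ((cont_phi1_sm hN hq hSMD hPHD j).sub ?_)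
  exact continuous_finsetSum _ fun i _ => (cont_sm hN hSMD i).mul (cont_phi1_sm hN hq hSMD hPHD i)

lemma cont_BB (hN : 2 ≤ N) (hq : q < 1) (hSMD : S_SMD) (hPTC : S_PTC) (j : Fin N) :
    Continuous (fun ξ : Fin N → ℝ => BB N q ξ j) := by
  have hNr : (2 : ℝ) ≤ (N : ℝ) := by exact_mod_cast hN
  have hp : ∀ i : Fin N, Continuous (fun ξ : Fin N → ℝ => psiT (N : ℝ) q (sm ξ i)) := fun i =>
    (hPTC N q hNr hq).1.comp (cont_sm hN hSMD i)
  unfold BB
  refine ((continuous_const.sub (cont_sm hN hSMD j)).pow 2 |>.mul (hp j)).add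
    (((cont_sm hN hSMD j).pow 2).mul ?_)
  exact continuous_finsetSum _ fun i _ => hp i

lemma cont_lin (μ : ℝ) : Continuous (fun y : (Fin N → ℝ) × (Fin N → ℝ) => lin μ y) := by
  unfold lin
  fun_prop

lemma cont_ff (hN : 2 ≤ N) (hq : q < 1) (hGC2 : S_GC2) (μ δ : ℝ) :
    Continuous (ff N q μ δ) := by
  unfold ff
  have h : Continuous (GG N q) := (hGC2 N hN q hq).continuous
  exact Real.continuous_exp.comp (continuous_const.mul (h.comp (cont_lin μ)))

end cont

/-! ### measure theoretic tools -/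

lemma meas_pair {α : Type*} {mα : MeasurableSpace α} {β : Type*} {mβ : MeasurableSpace β} {N : ℕ}
    (g : β → Fin N → ℝ) (hg : ∀ j, Measurable (fun y => g y j)) {Y : α → β} (hY : Measurable Y)
    {J : α → Fin N} (hJ : Measurable J) : Measurable (fun a => g (Y a) (J a)) := by
  have h : Measurable (fun p : β × Fin N => g p.1 p.2) :=
    measurable_from_prod_countable_left (fun j => hg j)
  exact h.comp (hY.prodMk hJ)

section paths

variable {Ω : Type u} {mΩ : MeasurableSpace Ω} {P : Measure Ω} [IsProbabilityMeasure P]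

lemma path_intervalIntegrable {F : ℝ≥0 → Ω → ℝ} (hF : Measurable (Function.uncurry F)) {C : ℝ}
    (hC : ∀ r ω, |F r ω| ≤ C) (a b : ℝ) (ω : Ω) :
    IntervalIntegrable (fun r : ℝ => F r.toNNReal ω) volume a b := by
  have hm : Measurable (fun r : ℝ => F r.toNNReal ω) :=
    hF.comp (measurable_real_toNNReal.prodMk measurable_const)
  constructor <;>
  exact Integrable.of_bound hm.aestronglyMeasurable C
    (Filter.Eventually.of_forall fun r => by rw [Real.norm_eq_abs]; exact hC _ _)

lemma prod_integrable {F : ℝ≥0 → Ω → ℝ} (hF : Measurable (Function.uncurry F)) {C : ℝ}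
    (hC : ∀ r ω, |F r ω| ≤ C) (a b : ℝ) (A : Set Ω) :
    Integrable (Function.uncurry fun (r : ℝ) ω => F r.toNNReal ω)
      ((volume.restrict (Set.uIoc a b)).prod (P.restrict A)) := by
  have hm : Measurable (Function.uncurry fun (r : ℝ) ω => F r.toNNReal ω) :=
    hF.comp ((measurable_real_toNNReal.comp measurable_fst).prodMk measurable_snd)
  haveI : IsFiniteMeasure (volume.restrict (Set.uIoc a b)) := by
    rw [Set.uIoc]
    infer_instance
  exact Integrable.of_bound hm.aestronglyMeasurable C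
    (Filter.Eventually.of_forall fun p => by
      rw [Real.norm_eq_abs]; exact hC _ _)

lemma path_integrable {F : ℝ≥0 → Ω → ℝ} (hF : Measurable (Function.uncurry F)) {C : ℝ}
    (hC : ∀ r ω, |F r ω| ≤ C) (s t : ℝ) (hst : s ≤ t) (A : Set Ω) :
    Integrable (fun ω => ∫ r in s..t, F r.toNNReal ω) (P.restrict A) := by
  have h := (prod_integrable (P := P) hF hC s t A).integral_prod_right
  have h2 : (fun ω => ∫ r in s..t, F r.toNNReal ω) =
      fun ω => ∫ r, Function.uncurry (fun (r : ℝ) ω => F r.toNNReal ω) (r, ω)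
        ∂(volume.restrict (Set.uIoc s t)) := by
    funext ω
    rw [intervalIntegral.integral_of_le hst, Set.uIoc_of_le hst]
    rfl
  rw [h2]
  exact h

lemma fubini_zero {Z : ℝ≥0 → Ω → ℝ} (hZ : Measurable (Function.uncurry Z)) {C : ℝ}
    (hC : ∀ r ω, |Z r ω| ≤ C) (s t : ℝ≥0) (hst : s ≤ t) (A : Set Ω)
    (h0 : ∀ r, s ≤ r → ∫ ω in A, Z r ω ∂P = 0) :
    ∫ ω in A, (∫ r in (s : ℝ)..t, Z r.toNNReal ω) ∂P = 0 := by
  rw [← intervalIntegral_integral_swap (prod_integrable (P := P) hZ hC s t A)]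
  have hst' : (s : ℝ) ≤ t := by exact_mod_cast hst
  rw [intervalIntegral.integral_of_le hst']
  rw [setIntegral_congr_fun (g := fun _ => (0 : ℝ)) measurableSet_Ioc]
  · simp
  · intro r hr
    apply h0
    rw [← NNReal.coe_le_coe, Real.coe_toNNReal r ((NNReal.coe_nonneg s).trans hr.1.le)]
    exact hr.1.le

end paths

theorem t_OBS (hCLK : S_CLK.{u}) (hTST : S_TST) (hGBD : S_GBD) (hSMD : S_SMD) (hGC2 : S_GC2)
    (hPTC : S_PTC) (hPHD : S_PHD) : S_OBS.{u} := by
  intro N hN q hqN hq μ δ hδ Ω mΩ P _ π s t hst A hA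
  obtain ⟨hclk, hclkc, hclk0, hJm, hJa, hpost⟩ := hCLK N μ Ω P π
  obtain ⟨htest, hgen⟩ := hTST N hN q hqN hq μ δ hδ
  obtain ⟨K, hK, hKb⟩ := hGBD N hN q hqN hq
  -- measurability
  have hXm : ∀ r, Measurable (π.X r) := fun r => (π.X_adapted r).mono (π.obs.le r) le_rfl
  have hCm : ∀ r, Measurable (clock π.J r) := fun r => (hclk r).mono (π.obs.le r) le_rfl
  have hXu : Measurable (Function.uncurry π.X) :=
    measurable_uncurry_of_continuous_of_measurable π.X_cont hXm
  have hCu : Measurable (Function.uncurry (clock π.J)) :=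
    measurable_uncurry_of_continuous_of_measurable hclkc hCm
  have hYu : Measurable (fun p : ℝ≥0 × Ω => (π.X p.1 p.2, clock π.J p.1 p.2)) := hXu.prodMk hCu
  have hYr : ∀ r, Measurable[π.obs r] (fun ω => (π.X r ω, clock π.J r ω)) := fun r =>
    (π.X_adapted r).prodMk (hclk r)
  have hYm : ∀ r, Measurable (fun ω => (π.X r ω, clock π.J r ω)) := fun r =>
    (hYr r).mono (π.obs.le r) le_rfl
  have hffc := cont_ff hN hq hGC2 μ δ
  have hG1c : ∀ j, Continuous (fun y : (Fin N → ℝ) × (Fin N → ℝ) => G1 N q (lin μ y) j) := fun j =>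
    (cont_G1 hN hq hSMD hPHD j).comp (cont_lin μ)
  have hBBc : ∀ j, Continuous (fun y : (Fin N → ℝ) × (Fin N → ℝ) => BB N q (lin μ y) j) := fun j =>
    (cont_BB hN hq hSMD hPTC j).comp (cont_lin μ)
  have hsmc : ∀ j, Continuous (fun y : (Fin N → ℝ) × (Fin N → ℝ) => sm (lin μ y) j) := fun j =>
    (cont_sm hN hSMD j).comp (cont_lin μ)
  have hlamc : ∀ j, Continuous (fun y : (Fin N → ℝ) × (Fin N → ℝ) => lam N q μ δ y j) := by
    intro j
    unfold lam
    exact (continuous_const.mul hffc).mul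
      ((continuous_const.mul ((hG1c j).pow 2)).sub (continuous_const.mul (hBBc j)))
  -- bounds
  have hff0 : ∀ y, 0 < ff N q μ δ y := fun y => Real.exp_pos _
  have hffb : ∀ y, ff N q μ δ y ≤ Real.exp (δ * K) := by
    intro y
    unfold ff
    apply Real.exp_le_exp.mpr
    have := (hKb (lin μ y)).1
    nlinarith
  have hE : 0 < Real.exp (δ * K) := Real.exp_pos _
  have hkb : ∀ y j, |ff N q μ δ y * G1 N q (lin μ y) j| ≤ Real.exp (δ * K) * K := by
    intro y j
    rw [abs_mul, abs_of_pos (hff0 y)]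
    exact mul_le_mul (hffb y) ((hKb (lin μ y)).2 j).1 (abs_nonneg _) hE.le
  have hlamb : ∀ y j, |lam N q μ δ y j| ≤
      (1 / 2) * μ ^ 2 * Real.exp (δ * K) * (δ ^ 2 * K ^ 2 + δ * K) := by
    intro y j
    unfold lam
    rw [abs_mul, abs_mul, abs_of_pos (hff0 y)]
    have h1 : |(1 / 2 : ℝ) * μ ^ 2| = (1 / 2) * μ ^ 2 := abs_of_nonneg (by positivity)
    rw [h1]
    apply mul_le_mul _ _ (abs_nonneg _) (by positivity)
    · exact mul_le_mul_of_nonneg_left (hffb y) (by positivity)
    · have hg := ((hKb (lin μ y)).2 j).1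
      have hb := ((hKb (lin μ y)).2 j).2
      have hg2 : G1 N q (lin μ y) j ^ 2 ≤ K ^ 2 := by
        rw [← sq_abs]
        exact pow_le_pow_left₀ (abs_nonneg _) hg 2
      have hb' := abs_le.mp hb
      rw [abs_le]
      constructor
      · have : 0 ≤ δ ^ 2 * G1 N q (lin μ y) j ^ 2 := by positivity
        nlinarith [hb'.2, sq_nonneg (δ * K)]
      · nlinarith [hb'.1, mul_le_mul_of_nonneg_left hg2 (sq_nonneg δ)]
  -- the random fields
  set L : ℝ≥0 → Ω → ℝ := fun r ω => lam N q μ δ (π.X r ω, clock π.J r ω) (π.J r ω) with hL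
  set Z : ℝ≥0 → Ω → ℝ := fun r ω =>
    ((if π.J r ω = π.jstar ω then (1 : ℝ) else 0)
      - sm (lin μ (π.X r ω, clock π.J r ω)) (π.J r ω)) *
    (ff N q μ δ (π.X r ω, clock π.J r ω) * G1 N q (lin μ (π.X r ω, clock π.J r ω)) (π.J r ω))
    with hZdef
  have hLm : Measurable (Function.uncurry L) :=
    meas_pair (fun y j => lam N q μ δ y j) (fun j => (hlamc j).measurable) hYu hJm
  have hjs : Measurable π.jstar := (π.jstar_full).mono (π.full.le 0) le_rfl
  have hind : Measurable (fun p : ℝ≥0 × Ω => if π.J p.1 p.2 = π.jstar p.2 then (1 : ℝ) else 0) :=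
    meas_pair (fun (i : Fin N) j => if j = i then (1 : ℝ) else 0) (fun j => Measurable.of_discrete)
      (hjs.comp measurable_snd) hJm
  have hZm : Measurable (Function.uncurry Z) := by
    refine (hind.sub ?_).mul ?_
    · exact meas_pair (fun y j => sm (lin μ y) j) (fun j => (hsmc j).measurable) hYu hJm
    · exact meas_pair (fun y j => ff N q μ δ y * G1 N q (lin μ y) j)
        (fun j => (hffc.mul (hG1c j)).measurable) hYu hJm
  have hLb : ∀ r ω, |L r ω| ≤ (1 / 2) * μ ^ 2 * Real.exp (δ * K) * (δ ^ 2 * K ^ 2 + δ * K) :=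
    fun r ω => hlamb _ _
  have hI1 : ∀ r ω, |(if π.J r ω = π.jstar ω then (1 : ℝ) else 0)
      - sm (lin μ (π.X r ω, clock π.J r ω)) (π.J r ω)| ≤ 1 := by
    intro r ω
    have h := ((hSMD N hN).1 (lin μ (π.X r ω, clock π.J r ω))).1 (π.J r ω)
    rw [abs_le]
    split_ifs <;> constructor <;> linarith [h.1, h.2]
  have hZb : ∀ r ω, |Z r ω| ≤ 1 * (Real.exp (δ * K) * K) := by
    intro r ω
    simp only [hZdef]
    rw [abs_mul]
    exact mul_le_mul (hI1 r ω) (hkb _ _) (abs_nonneg _) zero_le_one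
  -- the drift
  have hgenL : ∀ r ω, gen μ (ff N q μ δ) (π.X r ω) (clock π.J r ω) (π.J r ω)
      (π.J r ω = π.jstar ω) = L r ω - δ * μ ^ 2 * Z r ω := by
    intro r ω
    rw [hgen]
    simp only [hL, hZdef, lam]
    ring
  -- the projection
  have hzero : ∀ r, s ≤ r → ∫ ω in A, Z r ω ∂P = 0 := by
    intro r hr
    have hAr : MeasurableSet[π.obs r] A := π.obs.mono hr A hA
    have hAm : MeasurableSet A := π.obs.le r A hAr
    set w : Fin N → Ω → ℝ := fun j ω => if π.J r ω = j then
      ff N q μ δ (π.X r ω, clock π.J r ω) * G1 N q (lin μ (π.X r ω, clock π.J r ω)) j else 0 with hw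
    set e : Fin N → Ω → ℝ := fun j => (π.jstar ⁻¹' {j}).indicator (fun _ => (1 : ℝ)) with he
    set pp : Fin N → Ω → ℝ := fun j ω => post μ π.X π.J r ω j with hpp
    have hea : ∀ j ω, e j ω = if π.jstar ω = j then 1 else 0 := by
      intro j ω
      by_cases h : π.jstar ω = j
      · rw [if_pos h]
        exact Set.indicator_of_mem (by simpa using h) _
      · rw [if_neg h]
        exact Set.indicator_of_notMem (by simpa using h) _
    have hZs : ∀ ω, Z r ω = ∑ j, (w j ω * e j ω - w j ω * pp j ω) := by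
      intro ω
      rw [Finset.sum_eq_single (π.J r ω)]
      · rw [hea]
        have hsymm : (if π.jstar ω = π.J r ω then (1 : ℝ) else 0)
            = if π.J r ω = π.jstar ω then (1 : ℝ) else 0 := by
          by_cases h : π.J r ω = π.jstar ω
          · rw [if_pos h, if_pos h.symm]
          · rw [if_neg h, if_neg (Ne.symm h)]
        rw [hsymm]
        simp only [hZdef, hw, hpp, hpost, if_true]
        ring
      · intro j _ hj
        simp only [hw]
        rw [if_neg (Ne.symm hj)]
        ring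
      · intro h
        exact absurd (Finset.mem_univ _) h
    have hwm : ∀ j, Measurable[π.obs r] (w j) := by
      intro j
      refine Measurable.ite ?_ ?_ measurable_const
      · exact hJa r (measurableSet_singleton j)
      · exact (hffc.mul (hG1c j)).measurable.comp (hYr r)
    have hwm' : ∀ j, Measurable (w j) := fun j => (hwm j).mono (π.obs.le r) le_rfl
    have hwb : ∀ j ω, |w j ω| ≤ Real.exp (δ * K) * K := by
      intro j ω
      simp only [hw]
      split_ifs
      · exact hkb _ _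
      · rw [abs_zero]; positivity
    have hem : ∀ j, Measurable (e j) := fun j =>
      measurable_const.indicator (hjs (measurableSet_singleton j))
    have heb : ∀ j ω, |e j ω| ≤ 1 := by
      intro j ω
      rw [hea]
      split_ifs <;> simp
    have hppm : ∀ j, Measurable (pp j) := by
      intro j
      have : pp j = fun ω => sm (lin μ (π.X r ω, clock π.J r ω)) j := by
        funext ω
        simp only [hpp, hpost]
      rw [this]
      exact (hsmc j).measurable.comp (hYm r)
    have hppb : ∀ j ω, |pp j ω| ≤ 1 := by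
      intro j ω
      simp only [hpp, hpost]
      have h := ((hSMD N hN).1 (lin μ (π.X r ω, clock π.J r ω))).1 j
      rw [abs_le]; constructor <;> linarith [h.1, h.2]
    have hint : ∀ (a b : Ω → ℝ), Measurable a → Measurable b →
        (∀ ω, |a ω| ≤ Real.exp (δ * K) * K) → (∀ ω, |b ω| ≤ 1) → Integrable (a * b) P := by
      intro a b ha hb hab hbb
      refine Integrable.of_bound (ha.mul hb).aestronglyMeasurable (Real.exp (δ * K) * K * 1)
        (Filter.Eventually.of_forall fun ω => ?_)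
      rw [Real.norm_eq_abs, Pi.mul_apply, abs_mul]
      exact mul_le_mul (hab ω) (hbb ω) (abs_nonneg _) (by positivity)
    have hj0 : ∀ j, ∫ ω in A, (w j ω * e j ω - w j ω * pp j ω) ∂P = 0 := by
      intro j
      have hwe : Integrable (w j * e j) P := hint _ _ (hwm' j) (hem j) (hwb j) (heb j)
      have hwp : Integrable (w j * pp j) P := hint _ _ (hwm' j) (hppm j) (hwb j) (hppb j)
      have hei : Integrable (e j) P := by
        refine Integrable.of_bound (hem j).aestronglyMeasurable 1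
          (Filter.Eventually.of_forall fun ω => ?_)
        rw [Real.norm_eq_abs]
        exact heb j ω
      have h1 : ∫ ω in A, (w j * e j) ω ∂P = ∫ ω in A, (P[w j * e j | π.obs r]) ω ∂P :=
        (setIntegral_condExp (π.obs.le r) hwe hAr).symm
      have h2 : P[w j * e j | π.obs r] =ᵐ[P] w j * P[e j | π.obs r] :=
        condExp_mul_of_stronglyMeasurable_left (hwm j).stronglyMeasurable hwe hei
      have h3 : w j * P[e j | π.obs r] =ᵐ[P] w j * pp j := by
        have hb := π.bayes r j
        filter_upwards [hb] with ω hω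
        simp only [Pi.mul_apply]
        congr 1
      have h4 : ∫ ω in A, (P[w j * e j | π.obs r]) ω ∂P = ∫ ω in A, (w j * pp j) ω ∂P :=
        integral_congr_ae (ae_restrict_of_ae (h2.trans h3))
      have h5 : ∫ ω in A, (w j ω * e j ω - w j ω * pp j ω) ∂P
          = ∫ ω in A, (w j * e j) ω ∂P - ∫ ω in A, (w j * pp j) ω ∂P :=
        integral_sub hwe.integrableOn hwp.integrableOn
      rw [h5, h1, h4, sub_self]
    have h6 : ∫ ω in A, Z r ω ∂P = ∫ ω in A, ∑ j, (w j ω * e j ω - w j ω * pp j ω) ∂P := by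
      congr 1
      funext ω
      exact hZs ω
    rw [h6, integral_finsetSum]
    · exact Finset.sum_eq_zero fun j _ => hj0 j
    · intro j _
      exact ((hint _ _ (hwm' j) (hem j) (hwb j) (heb j)).sub
        (hint _ _ (hwm' j) (hppm j) (hwb j) (hppb j))).integrableOn
  -- the martingale
  have hmart := π.dynamics _ htest
  have hAf : MeasurableSet[π.full s] A := π.obs_le s A hA
  haveI hSF : SigmaFiniteFiltration P π.full := inferInstance
  have hM := hmart.setIntegral_eq hst hAf
  have hst' : (s : ℝ) ≤ t := by exact_mod_cast hst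
  have hgm : ∀ r ω, |L r ω - δ * μ ^ 2 * Z r ω| ≤
      (1 / 2) * μ ^ 2 * Real.exp (δ * K) * (δ ^ 2 * K ^ 2 + δ * K)
        + δ * μ ^ 2 * (1 * (Real.exp (δ * K) * K)) := by
    intro r ω
    refine (abs_sub _ _).trans (add_le_add (hLb r ω) ?_)
    rw [abs_mul, abs_of_nonneg (by positivity : (0 : ℝ) ≤ δ * μ ^ 2)]
    exact mul_le_mul_of_nonneg_left (hZb r ω) (by positivity)
  have hgmeas : Measurable (Function.uncurry fun r ω => L r ω - δ * μ ^ 2 * Z r ω) :=
    hLm.sub (measurable_const.mul hZm)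
  have hpathsub : ∀ ω, (∫ r in (0 : ℝ)..t, gen μ (ff N q μ δ) (π.X r.toNNReal ω)
        (clock π.J r.toNNReal ω) (π.J r.toNNReal ω) (π.J r.toNNReal ω = π.jstar ω))
      - (∫ r in (0 : ℝ)..s, gen μ (ff N q μ δ) (π.X r.toNNReal ω)
        (clock π.J r.toNNReal ω) (π.J r.toNNReal ω) (π.J r.toNNReal ω = π.jstar ω))
      = (∫ r in (s : ℝ)..t, L r.toNNReal ω) - δ * μ ^ 2 * ∫ r in (s : ℝ)..t, Z r.toNNReal ω := by
    intro ω
    simp only [hgenL]
    rw [intervalIntegral.integral_interval_sub_left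
      (path_intervalIntegrable (F := fun r ω => L r ω - δ * μ ^ 2 * Z r ω) hgmeas hgm 0 t ω)
      (path_intervalIntegrable (F := fun r ω => L r ω - δ * μ ^ 2 * Z r ω) hgmeas hgm 0 s ω)]
    rw [intervalIntegral.integral_sub (path_intervalIntegrable hLm hLb s t ω)
      ((path_intervalIntegrable hZm hZb s t ω).const_mul _), intervalIntegral.integral_const_mul]
  have hfi : ∀ r : ℝ≥0, Integrable (fun ω => ff N q μ δ (π.X r ω, clock π.J r ω)) P := by
    intro r
    refine Integrable.of_bound (hffc.measurable.comp (hYm r)).aestronglyMeasurable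
      (Real.exp (δ * K)) (Filter.Eventually.of_forall fun ω => ?_)
    rw [Real.norm_eq_abs, abs_of_pos (hff0 _)]
    exact hffb _
  have hdiff : ∫ ω in A, ((ff N q μ δ (π.X t ω, clock π.J t ω)
        - ff N q μ δ (π.X s ω, clock π.J s ω))
      - ((∫ r in (s : ℝ)..t, L r.toNNReal ω)
        - δ * μ ^ 2 * ∫ r in (s : ℝ)..t, Z r.toNNReal ω)) ∂P = 0 := by
    have h1 := integral_sub (μ := P.restrict A) (hmart.integrable t).integrableOn
      (hmart.integrable s).integrableOn
    rw [hM, sub_self] at h1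
    rw [← h1]
    congr 1
    funext ω
    rw [← hpathsub ω]
    ring
  have hLi := path_integrable (P := P) hLm hLb s t hst' A
  have hZi := path_integrable (P := P) hZm hZb s t hst' A
  have hfd : Integrable (fun ω => ff N q μ δ (π.X t ω, clock π.J t ω)
        - ff N q μ δ (π.X s ω, clock π.J s ω)) (P.restrict A) :=
    ((hfi t).sub (hfi s)).integrableOn
  have hLZ : Integrable (fun ω => (∫ r in (s : ℝ)..t, L r.toNNReal ω)
      - δ * μ ^ 2 * ∫ r in (s : ℝ)..t, Z r.toNNReal ω) (P.restrict A) :=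
    hLi.sub (hZi.const_mul _)
  have hZc : Integrable (fun ω => δ * μ ^ 2 * ∫ r in (s : ℝ)..t, Z r.toNNReal ω)
      (P.restrict A) := hZi.const_mul _
  rw [integral_sub hfd hLZ, integral_sub hLi hZc,
    integral_const_mul, fubini_zero hZm hZb s t hst A hzero, mul_zero, sub_zero, sub_eq_zero]
    at hdiff
  exact hdiff

end H99.FL
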