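import Pool.Agent.H99.FL.GEN

set_option autoImplicit false

open MeasureTheory ProbabilityTheory Set Filter Topology
open scoped NNReal ENNReal

universe u

namespace H99.FL

open H5.FL

/-- softmax is monotone -/
lemma sm_le_iff {N : ℕ} (ξ : Fin N → ℝ) (i j : Fin N) : sm ξ i ≤ sm ξ j ↔ ξ i ≤ ξ j := by
  unfold sm
  have h : 0 < ∑ k, Real.exp (ξ k) :=
    Finset.sum_pos (fun k _ => Real.exp_pos _) ⟨i, Finset.mem_univ _⟩
  rw [div_le_div_iff_of_pos_right h, Real.exp_le_exp]

lemma sm_eq_iff {N : ℕ} (ξ : Fin N → ℝ) (i j : Fin N) : sm ξ i = sm ξ j ↔ ξ i = ξ j := by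
  rw [le_antisymm_iff, le_antisymm_iff, sm_le_iff, sm_le_iff]

/-- all the measurability facts of a policy -/
lemma pol_meas (hCLK : S_CLK.{u}) {N : ℕ} {μ : ℝ} {Ω : Type u} [mΩ : MeasurableSpace Ω]
    {P : Measure Ω} [IsProbabilityMeasure P] (π : Policy N μ Ω P) :
    Measurable (fun p : ℝ≥0 × Ω => (π.X p.1 p.2, clock π.J p.1 p.2)) ∧
    (∀ r, Measurable[π.obs r] (fun ω => (π.X r ω, clock π.J r ω))) ∧
    Measurable π.jstar ∧ Measurable (fun p : ℝ≥0 × Ω => π.J p.1 p.2) := by
  obtain ⟨hclk, hclkc, hclk0, hJm, hJa, hpost⟩ := hCLK N μ Ω P π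
  have hXm : ∀ r, Measurable (π.X r) := fun r => (π.X_adapted r).mono (π.obs.le r) le_rfl
  have hCm : ∀ r, Measurable (clock π.J r) := fun r => (hclk r).mono (π.obs.le r) le_rfl
  have hXu : Measurable (Function.uncurry π.X) :=
    measurable_uncurry_of_continuous_of_measurable π.X_cont hXm
  have hCu : Measurable (Function.uncurry (clock π.J)) :=
    measurable_uncurry_of_continuous_of_measurable hclkc hCm
  exact ⟨hXu.prodMk hCu, fun r => (π.X_adapted r).prodMk (hclk r),
    (π.jstar_full).mono (π.full.le 0) le_rfl, hJm⟩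

lemma gen_meas (hCLK : S_CLK.{u}) {N : ℕ} {μ : ℝ} {Ω : Type u} [mΩ : MeasurableSpace Ω]
    {P : Measure Ω} [IsProbabilityMeasure P] (π : Policy N μ Ω P)
    {f : (Fin N → ℝ) × (Fin N → ℝ) → ℝ} (hf : ContDiff ℝ 2 f) :
    Measurable (Function.uncurry fun (r : ℝ≥0) ω => gen μ f (π.X r ω) (clock π.J r ω) (π.J r ω)
      (π.J r ω = π.jstar ω)) := by
  obtain ⟨hYu, hYr, hjs, hJm⟩ := pol_meas hCLK π
  have h1 : ∀ j : Fin N, Measurable (fun z : ((Fin N → ℝ) × (Fin N → ℝ)) × Fin N =>
      gen μ f z.1.1 z.1.2 j (j = z.2)) := by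
    intro j
    exact measurable_from_prod_countable_left (fun i => (gen_cont hf μ j (j = i)).measurable)
  exact meas_pair (fun (z : ((Fin N → ℝ) × (Fin N → ℝ)) × Fin N) j =>
      gen μ f z.1.1 z.1.2 j (j = z.2)) h1 (hYu.prodMk (hjs.comp measurable_snd)) hJm

lemma vv_nonpos_iff {N : ℕ} (c μ : ℝ) (y : (Fin N → ℝ) × (Fin N → ℝ)) (a : Fin N) :
    vv (Real.exp c) μ y a ≤ 0 ↔ lin μ y a ≤ c := by
  unfold vv
  rw [sub_nonpos, ← Real.exp_add, ← Real.exp_zero, Real.exp_le_exp]
  constructor <;> intro h <;> linarith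

lemma vv_cont {N : ℕ} (C μ : ℝ) (a : Fin N) :
    Continuous (fun y : (Fin N → ℝ) × (Fin N → ℝ) => vv C μ y a) := by
  unfold vv
  have h : Continuous (fun y : (Fin N → ℝ) × (Fin N → ℝ) => lin μ y a) :=
    (continuous_apply a).comp (cont_lin μ)
  exact continuous_const.sub (continuous_const.mul (Real.continuous_exp.comp h.neg))

lemma wEr_meas (η : ℝ) : Measurable (wEr η) := by
  unfold wEr
  fun_prop

lemma path_meas {Ω : Type u} {mΩ : MeasurableSpace Ω} {F : ℝ≥0 → Ω → ℝ}
    (hF : Measurable (Function.uncurry F)) (ω : Ω) : Measurable (fun r : ℝ => F r.toNNReal ω) :=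
  hF.comp (measurable_real_toNNReal.prodMk measurable_const)

lemma double_limit {Ω : Type u} {mΩ : MeasurableSpace Ω} {P : Measure Ω} [IsProbabilityMeasure P]
    {F : ℕ → ℝ≥0 → Ω → ℝ} (hm : ∀ n, Measurable (Function.uncurry (F n)))
    (hb : ∀ n r ω, |F n r ω| ≤ 1) (h0 : ∀ r ω, Tendsto (fun n => F n r ω) atTop (𝓝 0))
    (s t : ℝ) (hst : s ≤ t) (A : Set Ω) :
    Tendsto (fun n => ∫ ω in A, (∫ r in s..t, F n r.toNNReal ω) ∂P) atTop (𝓝 0) := by
  suffices h00 : Tendsto (fun n : ℕ => ∫ ω in A, (∫ r in s..t, F n r.toNNReal ω) ∂P) atTop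
      (𝓝 (∫ _ in A, (0 : ℝ) ∂P)) by
    simpa only [integral_zero] using h00
  refine tendsto_integral_of_dominated_convergence (fun _ => |t - s|) ?_
    (integrable_const _) ?_ ?_
  · intro n
    exact (path_integrable (P := P) (hm n) (hb n) s t hst A).aestronglyMeasurable
  · intro n
    refine Filter.Eventually.of_forall fun ω => ?_
    have := intervalIntegral.norm_integral_le_of_norm_le_const (a := s) (b := t) (C := 1)
      (f := fun r : ℝ => F n r.toNNReal ω)
      (fun r _ => by rw [Real.norm_eq_abs]; exact hb n _ ω)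
    rw [one_mul] at this
    exact this
  · refine Filter.Eventually.of_forall fun ω => ?_
    suffices h11 : Tendsto (fun n : ℕ => ∫ r in s..t, F n r.toNNReal ω) atTop
        (𝓝 (∫ _ in s..t, (0 : ℝ))) by
      simpa only [intervalIntegral.integral_zero] using h11
    refine intervalIntegral.tendsto_integral_filter_of_dominated_convergence (fun _ => (1 : ℝ))
      ?_ ?_ intervalIntegrable_const ?_
    · exact Filter.Eventually.of_forall fun n => (path_meas (hm n) ω).aestronglyMeasurable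
    · refine Filter.Eventually.of_forall fun n => ?_
      refine Filter.Eventually.of_forall fun r _ => ?_
      rw [Real.norm_eq_abs]
      exact hb n _ ω
    · exact Filter.Eventually.of_forall fun r _ => h0 _ _

theorem t_PM1 (hUUT : S_UUT) (hCHI : S_CHI) (hCHL : S_CHL) (hCLK : S_CLK.{u}) : S_PM1.{u} := by
  intro N μ Ω mΩ P _ π hN hftl a b hab s t c hst
  obtain ⟨hYu, hYr, hjs, hJm⟩ := pol_meas hCLK π
  have hpost := (hCLK N μ Ω P π).2.2.2.2.2
  have hYm : ∀ r, Measurable (fun ω => (π.X r ω, clock π.J r ω)) := fun r =>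
    (hYr r).mono (π.obs.le r) le_rfl
  set C := Real.exp c with hC
  have hC0 : 0 < C := Real.exp_pos c
  have hst' : (s : ℝ) ≤ t := by exact_mod_cast hst
  -- the event
  set A : Set Ω := {ω | min (xi π s ω a) (xi π s ω b) ≤ c} with hA
  have hxim : ∀ i, Measurable[π.obs s] (fun ω => xi π s ω i) := by
    intro i
    exact (((continuous_apply i).comp (cont_lin μ)).measurable).comp (hYr s)
  have hAobs : MeasurableSet[π.obs s] A :=
    ((hxim a).min (hxim b)) (measurableSet_Iic (a := c))
  have hAfull : MeasurableSet[π.full s] A := π.obs_le s A hAobs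
  have hAm : MeasurableSet A := π.obs.le s A hAobs
  -- bounds of `v`
  have hv1 : ∀ (y : (Fin N → ℝ) × (Fin N → ℝ)) i, vv C μ y i ≤ 1 := by
    intro y i
    unfold vv
    have : 0 < C * Real.exp (-(lin μ y i)) := by positivity
    linarith
  have hchi1 : ∀ η, 0 < η → ∀ (y : (Fin N → ℝ) × (Fin N → ℝ)) i,
      0 ≤ chi η (vv C μ y i) ∧ chi η (vv C μ y i) ≤ 1 := by
    intro η hη y i
    have h := (hCHI η hη).2.1 (vv C μ y i)
    exact ⟨h.1, h.2.trans (max_le (hv1 y i) zero_le_one)⟩
  -- the key inequality for one `η`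
  have key : ∀ η, 0 < η → ∫ ω in A, uu C η μ a b (π.X t ω, clock π.J t ω) ∂P ≤
      (1 / 2) * μ ^ 2 * ∫ ω in A, (∫ r in (s : ℝ)..t,
        wEr η (vv C μ (π.X r.toNNReal ω, clock π.J r.toNNReal ω) (π.J r.toNNReal ω))) ∂P := by
    intro η hη
    obtain ⟨htest, hgen⟩ := hUUT N C η μ hC0 hη a b hab
    obtain ⟨K, hK0, hK⟩ := gen_bound htest μ
    have hgm := gen_meas hCLK π htest.smooth
    have hgb : ∀ (r : ℝ≥0) (ω : Ω), |gen μ (uu C η μ a b) (π.X r ω) (clock π.J r ω) (π.J r ω)
        (π.J r ω = π.jstar ω)| ≤ K := fun r ω => hK _ _ _ _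
    have hmart := π.dynamics _ htest
    haveI hSF : SigmaFiniteFiltration P π.full := inferInstance
    have hM := hmart.setIntegral_eq hst hAfull
    have hub : ∀ y, |uu C η μ a b y| ≤ 1 := by
      intro y
      unfold uu
      have h1 := hchi1 η hη y a
      have h2 := hchi1 η hη y b
      rw [abs_of_nonneg (mul_nonneg h1.1 h2.1)]
      nlinarith
    have huc : Continuous (uu C η μ a b) := htest.smooth.continuous
    have hui : ∀ r : ℝ≥0, Integrable (fun ω => uu C η μ a b (π.X r ω, clock π.J r ω)) P := by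
      intro r
      refine Integrable.of_bound (huc.measurable.comp (hYm r)).aestronglyMeasurable 1
        (Filter.Eventually.of_forall fun ω => ?_)
      rw [Real.norm_eq_abs]
      exact hub _
    have hus : ∫ ω in A, uu C η μ a b (π.X s ω, clock π.J s ω) ∂P = 0 := by
      rw [setIntegral_congr_fun (g := fun _ => (0 : ℝ)) hAm]
      · simp
      · intro ω hω
        have hω' : min (xi π s ω a) (xi π s ω b) ≤ c := hω
        simp only [uu]
        rcases min_le_iff.mp hω' with h | h
        · rw [(hCHI η hη).2.2.1 _ ((vv_nonpos_iff c μ _ a).mpr h), zero_mul]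
        · rw [(hCHI η hη).2.2.1 (vv C μ _ b) ((vv_nonpos_iff c μ _ b).mpr h), mul_zero]
    have hpath : ∀ ω, (∫ r in (0 : ℝ)..t, gen μ (uu C η μ a b) (π.X r.toNNReal ω)
          (clock π.J r.toNNReal ω) (π.J r.toNNReal ω) (π.J r.toNNReal ω = π.jstar ω))
        - (∫ r in (0 : ℝ)..s, gen μ (uu C η μ a b) (π.X r.toNNReal ω)
          (clock π.J r.toNNReal ω) (π.J r.toNNReal ω) (π.J r.toNNReal ω = π.jstar ω))
        = ∫ r in (s : ℝ)..t, gen μ (uu C η μ a b) (π.X r.toNNReal ω)
          (clock π.J r.toNNReal ω) (π.J r.toNNReal ω) (π.J r.toNNReal ω = π.jstar ω) := by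
      intro ω
      exact intervalIntegral.integral_interval_sub_left
        (path_intervalIntegrable hgm hgb 0 t ω) (path_intervalIntegrable hgm hgb 0 s ω)
    have hgi := path_integrable (P := P) hgm hgb s t hst' A
    have hdiff : ∫ ω in A, ((uu C η μ a b (π.X t ω, clock π.J t ω)
        - uu C η μ a b (π.X s ω, clock π.J s ω))
        - ∫ r in (s : ℝ)..t, gen μ (uu C η μ a b) (π.X r.toNNReal ω)
          (clock π.J r.toNNReal ω) (π.J r.toNNReal ω) (π.J r.toNNReal ω = π.jstar ω)) ∂P = 0 := by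
      have h1 := integral_sub (μ := P.restrict A) (hmart.integrable t).integrableOn
        (hmart.integrable s).integrableOn
      rw [hM, sub_self] at h1
      rw [← h1]
      congr 1
      funext ω
      rw [← hpath ω]
      ring
    have hfd : Integrable (fun ω => uu C η μ a b (π.X t ω, clock π.J t ω)
        - uu C η μ a b (π.X s ω, clock π.J s ω)) (P.restrict A) :=
      ((hui t).sub (hui s)).integrableOn
    rw [integral_sub hfd hgi,
      integral_sub (hui t).integrableOn (hui s).integrableOn, hus, sub_zero, sub_eq_zero] at hdiff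
    rw [hdiff, ← integral_const_mul]
    -- compare the integrands
    have hwm : Measurable (Function.uncurry fun (r : ℝ≥0) ω =>
        wEr η (vv C μ (π.X r ω, clock π.J r ω) (π.J r ω))) :=
      (wEr_meas η).comp (meas_pair (fun y j => vv C μ y j) (fun j => (vv_cont C μ j).measurable)
        hYu hJm)
    have hwb : ∀ (r : ℝ≥0) (ω : Ω), |wEr η (vv C μ (π.X r ω, clock π.J r ω) (π.J r ω))| ≤ 1 := by
      intro r ω
      have := (hCHI η hη).2.2.2.2.2.2.2 (vv C μ (π.X r ω, clock π.J r ω) (π.J r ω))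
      rw [abs_of_nonneg this.1]
      exact this.2
    have hwi := path_integrable (P := P) hwm hwb s t hst' A
    refine integral_mono_ae hgi (hwi.const_mul _) (ae_restrict_of_ae ?_)
    filter_upwards [hftl] with ω hω
    rw [← intervalIntegral.integral_const_mul]
    refine intervalIntegral.integral_mono_on hst' (path_intervalIntegrable hgm hgb s t ω)
      ((path_intervalIntegrable hwm hwb s t ω).const_mul _) (fun r _ => ?_)
    have hle : ∀ i, lin μ (π.X r.toNNReal ω, clock π.J r.toNNReal ω) i ≤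
        lin μ (π.X r.toNNReal ω, clock π.J r.toNNReal ω) (π.J r.toNNReal ω) := by
      intro i
      have h := hω r.toNNReal i
      rw [hpost, sm_le_iff] at h
      exact h
    exact hgen _ _ _ _ (hle a) (hle b)
  -- the limits
  have hvam : ∀ i, Measurable (fun ω => vv C μ (π.X t ω, clock π.J t ω) i) := fun i =>
    (vv_cont C μ i).measurable.comp (hYm t)
  have hηpos : ∀ n : ℕ, 0 < 1 / ((n : ℝ) + 1) := fun n => by positivity
  have hlim1 : Tendsto (fun n : ℕ => ∫ ω in A, uu C (1 / ((n : ℝ) + 1)) μ a b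
      (π.X t ω, clock π.J t ω) ∂P) atTop
      (𝓝 (∫ ω in A, max (vv C μ (π.X t ω, clock π.J t ω) a) 0 *
        max (vv C μ (π.X t ω, clock π.J t ω) b) 0 ∂P)) := by
    refine tendsto_integral_of_dominated_convergence (fun _ => (1 : ℝ)) ?_
      (integrable_const _) ?_ ?_
    · intro n
      have hc : Continuous (uu C (1 / ((n : ℝ) + 1)) μ a b) :=
        (hUUT N C _ μ hC0 (hηpos n) a b hab).1.smooth.continuous
      exact (hc.measurable.comp (hYm t)).aestronglyMeasurable
    · intro n
      refine Filter.Eventually.of_forall fun ω => ?_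
      rw [Real.norm_eq_abs]
      unfold uu
      have h1 := hchi1 _ (hηpos n) (π.X t ω, clock π.J t ω) a
      have h2 := hchi1 _ (hηpos n) (π.X t ω, clock π.J t ω) b
      rw [abs_of_nonneg (mul_nonneg h1.1 h2.1)]
      nlinarith
    · refine Filter.Eventually.of_forall fun ω => ?_
      unfold uu
      exact (hCHL _).1.mul (hCHL _).1
  have hlim2 : Tendsto (fun n : ℕ => ∫ ω in A, (∫ r in (s : ℝ)..t,
        wEr (1 / ((n : ℝ) + 1)) (vv C μ (π.X r.toNNReal ω, clock π.J r.toNNReal ω)
          (π.J r.toNNReal ω))) ∂P) atTop (𝓝 0) := by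
    have hwm : ∀ n : ℕ, Measurable (Function.uncurry fun (r : ℝ≥0) ω =>
        wEr (1 / ((n : ℝ) + 1)) (vv C μ (π.X r ω, clock π.J r ω) (π.J r ω))) := fun n =>
      (wEr_meas _).comp (meas_pair (fun y j => vv C μ y j) (fun j => (vv_cont C μ j).measurable)
        hYu hJm)
    have hwb : ∀ (n : ℕ) (r : ℝ≥0) (ω : Ω),
        |wEr (1 / ((n : ℝ) + 1)) (vv C μ (π.X r ω, clock π.J r ω) (π.J r ω))| ≤ 1 := by
      intro n r ω
      have := (hCHI _ (hηpos n)).2.2.2.2.2.2.2 (vv C μ (π.X r ω, clock π.J r ω) (π.J r ω))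
      rw [abs_of_nonneg this.1]
      exact this.2
    exact double_limit (P := P) hwm hwb (fun r ω => (hCHL _).2) s t hst' A
  have hle0 : ∫ ω in A, max (vv C μ (π.X t ω, clock π.J t ω) a) 0 *
        max (vv C μ (π.X t ω, clock π.J t ω) b) 0 ∂P ≤ 0 := by
    have h := hlim2.const_mul ((1 / 2) * μ ^ 2)
    rw [mul_zero] at h
    exact le_of_tendsto_of_tendsto' hlim1 h (fun n => key _ (hηpos n))
  have hprodm : Measurable (fun ω => max (vv C μ (π.X t ω, clock π.J t ω) a) 0 *
        max (vv C μ (π.X t ω, clock π.J t ω) b) 0) :=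
    ((hvam a).max measurable_const).mul ((hvam b).max measurable_const)
  have hnn : ∀ ω, 0 ≤ max (vv C μ (π.X t ω, clock π.J t ω) a) 0 *
        max (vv C μ (π.X t ω, clock π.J t ω) b) 0 := fun ω =>
    mul_nonneg (le_max_right _ _) (le_max_right _ _)
  have hint : Integrable (fun ω => max (vv C μ (π.X t ω, clock π.J t ω) a) 0 *
        max (vv C μ (π.X t ω, clock π.J t ω) b) 0) (P.restrict A) := by
    refine Integrable.of_bound hprodm.aestronglyMeasurable 1
      (Filter.Eventually.of_forall fun ω => ?_)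
    rw [Real.norm_eq_abs, abs_of_nonneg (hnn ω)]
    have h1 : max (vv C μ (π.X t ω, clock π.J t ω) a) 0 ≤ 1 := max_le (hv1 _ _) zero_le_one
    have h2 : max (vv C μ (π.X t ω, clock π.J t ω) b) 0 ≤ 1 := max_le (hv1 _ _) zero_le_one
    have h3 := le_max_right (vv C μ (π.X t ω, clock π.J t ω) a) 0
    have h4 := le_max_right (vv C μ (π.X t ω, clock π.J t ω) b) 0
    nlinarith
  have hae := (integral_eq_zero_iff_of_nonneg (μ := P.restrict A) hnn hint).mp
    (le_antisymm hle0 (integral_nonneg hnn))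
  have hae2 := (ae_restrict_iff' hAm).mp hae
  filter_upwards [hae2] with ω hω hmin
  have h := hω hmin
  simp only [Pi.zero_apply, mul_eq_zero] at h
  rw [min_le_iff]
  rcases h with h | h
  · left
    exact (vv_nonpos_iff c μ _ a).mp (max_eq_right_iff.mp h)
  · right
    exact (vv_nonpos_iff c μ _ b).mp (max_eq_right_iff.mp h)

end H99.FL
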