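import Pool.Agent.H99.FL.PM1

set_option autoImplicit false

open MeasureTheory ProbabilityTheory Set Filter Topology
open scoped NNReal ENNReal

universe u

namespace H99.FL

open H5.FL

lemma cont_xi (hCLK : S_CLK.{u}) {N : ℕ} {μ : ℝ} {Ω : Type u} [mΩ : MeasurableSpace Ω]
    {P : Measure Ω} [IsProbabilityMeasure P] (π : Policy N μ Ω P) (ω : Ω) :
    Continuous (fun r : ℝ≥0 => xi π r ω) := by
  have hclkc := (hCLK N μ Ω P π).2.1 ω
  unfold xi
  exact (cont_lin μ).comp ((π.X_cont ω).prodMk hclkc)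

/-- a continuous function which is monotone along a dense set is monotone -/
lemma anti_of_dense (m : ℝ≥0 → ℝ) (hm : Continuous m) (D : Set ℝ≥0) (hD : Dense D)
    (h : ∀ s ∈ D, ∀ t ∈ D, s ≤ t → m t ≤ m s) : ∀ s t, s ≤ t → m t ≤ m s := by
  intro s t hst
  rcases hst.eq_or_lt with rfl | hlt
  · exact le_rfl
  have hF : IsClosed {p : ℝ≥0 × ℝ≥0 | m p.2 ≤ m p.1} :=
    isClosed_le (hm.comp continuous_snd) (hm.comp continuous_fst)
  have hU : IsOpen {p : ℝ≥0 × ℝ≥0 | p.1 < p.2} := isOpen_lt continuous_fst continuous_snd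
  have hsub : {p : ℝ≥0 × ℝ≥0 | p.1 < p.2} ∩ (D ×ˢ D) ⊆ {p : ℝ≥0 × ℝ≥0 | m p.2 ≤ m p.1} := by
    rintro ⟨a, b⟩ ⟨hab, ha, hb⟩
    exact h a ha b hb hab.le
  have hcl := (hD.prod hD).open_subset_closure_inter hU
  have := hF.closure_subset_iff.mpr hsub (hcl (show (s, t) ∈ {p : ℝ≥0 × ℝ≥0 | p.1 < p.2} from hlt))
  exact this

theorem t_PM2 (hPM1 : S_PM1.{u}) (hCLK : S_CLK.{u}) : S_PM2.{u} := by
  intro N μ Ω mΩ P _ π hN hftl
  have h1 : ∀ᵐ ω ∂P, ∀ (a b : Fin N) (n k : ℕ) (c : ℚ), a ≠ b →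
      TopologicalSpace.denseSeq ℝ≥0 n ≤ TopologicalSpace.denseSeq ℝ≥0 k →
      min (xi π (TopologicalSpace.denseSeq ℝ≥0 n) ω a) (xi π (TopologicalSpace.denseSeq ℝ≥0 n) ω b)
        ≤ (c : ℝ) →
      min (xi π (TopologicalSpace.denseSeq ℝ≥0 k) ω a) (xi π (TopologicalSpace.denseSeq ℝ≥0 k) ω b)
        ≤ (c : ℝ) := by
    rw [ae_all_iff]; intro a
    rw [ae_all_iff]; intro b
    rw [ae_all_iff]; intro n
    rw [ae_all_iff]; intro k
    rw [ae_all_iff]; intro c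
    by_cases hab : a = b
    · exact Eventually.of_forall fun ω h => absurd hab h
    by_cases hnk : TopologicalSpace.denseSeq ℝ≥0 n ≤ TopologicalSpace.denseSeq ℝ≥0 k
    · filter_upwards [hPM1 N μ Ω P π hN hftl a b hab _ _ (c : ℝ) hnk] with ω hω _ _
      exact hω
    · exact Eventually.of_forall fun ω _ h => absurd h hnk
  filter_upwards [h1] with ω hω a b hab
  refine anti_of_dense (fun r => min (xi π r ω a) (xi π r ω b)) ?_
    (Set.range (TopologicalSpace.denseSeq ℝ≥0)) (TopologicalSpace.denseRange_denseSeq ℝ≥0) ?_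
  · have h := cont_xi hCLK π ω
    exact ((continuous_apply a).comp h).min ((continuous_apply b).comp h)
  · rintro _ ⟨n, rfl⟩ _ ⟨k, rfl⟩ hnk
    by_contra hcon
    push Not at hcon
    obtain ⟨c, hc1, hc2⟩ := exists_rat_btwn hcon
    exact absurd (hω a b n k c hab hnk hc1.le) (not_le.mpr hc2)

theorem t_FLF (hPM2 : S_PM2.{u}) (hNM2 : S_NM2.{u}) (hDET : S_DET) (hCLK : S_CLK.{u})
    (hSMD : S_SMD) : S_FLF.{u} := by
  intro N μ Ω mΩ P _ π ε hN hftl
  obtain ⟨-, -, hclk0, -, -, hpost⟩ := hCLK N μ Ω P π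
  filter_upwards [hftl, hPM2 N μ Ω P π hN hftl, hNM2 N μ Ω P π hN hftl] with ω h1 h2 h3 t _
  have hle : ∀ (t : ℝ≥0) (i : Fin N), xi π t ω i ≤ xi π t ω (π.J t ω) := by
    intro t i
    have h := h1 t i
    rw [hpost, sm_le_iff] at h
    exact h
  have h0 : ∀ j, xi π 0 ω j = 0 := by
    intro j
    unfold xi lin
    simp only [π.X_zero, hclk0]
    ring
  have hdet := hDET N (fun r => xi π r ω) (fun r => π.J r ω) (cont_xi hCLK π ω) h0 hle
    (fun a b hab s t hst => h2 a b hab s t hst) (fun i s t hst h => h3 i s t hst h) t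
  refine ⟨h1 t, fun i hi => ?_⟩
  have hsum := ((hSMD N hN).1 (lin μ (π.X t ω, clock π.J t ω))).2
  have hN1 : (0 : ℝ) < (N : ℝ) - 1 := by
    have : (2 : ℝ) ≤ (N : ℝ) := by exact_mod_cast hN
    linarith
  rw [hpost, eq_div_iff hN1.ne']
  rw [← Finset.add_sum_erase _ _ (Finset.mem_univ (π.J t ω))] at hsum
  have hconst : ∑ k ∈ Finset.univ.erase (π.J t ω), sm (lin μ (π.X t ω, clock π.J t ω)) k
      = ∑ k ∈ Finset.univ.erase (π.J t ω), sm (lin μ (π.X t ω, clock π.J t ω)) i := by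
    refine Finset.sum_congr rfl fun k hk => ?_
    rw [sm_eq_iff]
    exact hdet k i (Finset.ne_of_mem_erase hk) hi
  rw [hconst, Finset.sum_const, Finset.card_erase_of_mem (Finset.mem_univ _), Finset.card_univ,
    Fintype.card_fin, nsmul_eq_mul, Nat.cast_sub (by omega), Nat.cast_one] at hsum
  linarith

end H99.FL
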