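import Pool.Agent.H99.FL.IS12

set_option autoImplicit false

open MeasureTheory ProbabilityTheory Set Filter Topology
open scoped NNReal ENNReal

universe u

namespace H99.FL

open H5.FL

lemma int_sq {Ω : Type u} {mΩ : MeasurableSpace Ω} {P : Measure Ω} [IsProbabilityMeasure P]
    {x y : Ω → ℝ} (hx : Measurable x) (hy : Measurable y) (hx4 : Integrable (fun ω => x ω ^ 4) P)
    (hy4 : Integrable (fun ω => y ω ^ 4) P) : Integrable (fun ω => x ω * y ω) P := by
  refine ((integrable_const (1 : ℝ)).add (hx4.add hy4)).mono' (hx.mul hy).aestronglyMeasurable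
    (Filter.Eventually.of_forall fun ω => ?_)
  rw [Real.norm_eq_abs]
  simp only [Pi.add_apply]
  rw [abs_le]
  constructor <;> nlinarith [sq_nonneg (x ω - y ω), sq_nonneg (x ω + y ω), sq_nonneg (x ω ^ 2 - 1),
    sq_nonneg (y ω ^ 2 - 1), sq_nonneg (x ω ^ 2), sq_nonneg (y ω ^ 2)]

lemma int_one {Ω : Type u} {mΩ : MeasurableSpace Ω} {P : Measure Ω} [IsProbabilityMeasure P]
    {x : Ω → ℝ} (hx : Measurable x) (hx4 : Integrable (fun ω => x ω ^ 4) P) :
    Integrable x P := by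
  refine ((integrable_const (1 : ℝ)).add hx4).mono' hx.aestronglyMeasurable
    (Filter.Eventually.of_forall fun ω => ?_)
  rw [Real.norm_eq_abs]
  simp only [Pi.add_apply]
  rw [abs_le]
  constructor <;> nlinarith [sq_nonneg (x ω - 1), sq_nonneg (x ω + 1), sq_nonneg (x ω ^ 2 - 1),
    sq_nonneg (x ω ^ 2)]

/-- an integrable function times a bounded measurable one -/
lemma int_bdd {Ω : Type u} {mΩ : MeasurableSpace Ω} {P : Measure Ω}
    {g x : Ω → ℝ} (hg : Measurable g) {K : ℝ} (hK : ∀ ω, |g ω| ≤ K) (hx : Integrable x P) :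
    Integrable (fun ω => g ω * x ω) P :=
  hx.bdd_mul hg.aestronglyMeasurable (Filter.Eventually.of_forall fun ω => by
    rw [Real.norm_eq_abs]; exact hK ω)

lemma gen_meas_fix {N : ℕ} (μ : ℝ) {Ω : Type u} {mΩ : MeasurableSpace Ω}
    {Y : Ω → (Fin N → ℝ) × (Fin N → ℝ)} {js : Ω → Fin N} (hY : Measurable Y) (hjs : Measurable js)
    {f : (Fin N → ℝ) × (Fin N → ℝ) → ℝ} (hf : ContDiff ℝ 2 f) (j : Fin N) :
    Measurable (fun ω => gen μ f (Y ω).1 (Y ω).2 j (j = js ω)) :=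
  meas_pair (fun (y : (Fin N → ℝ) × (Fin N → ℝ)) (i : Fin N) => gen μ f y.1 y.2 j (j = i))
    (fun i => (gen_cont hf μ j (j = i)).measurable) hY hjs

theorem is12 (hIT2 : S_IT2.{u}) (hWGT : S_WGT.{u}) (hTAY : S_TAY) (hPAR : S_PAR)
    {N : ℕ} {μ : ℝ} {Ω : Type u} [mΩ : MeasurableSpace Ω] {P : Measure Ω}
    [IsProbabilityMeasure P] (π : BPolicy N μ Ω P) (f : (Fin N → ℝ) × (Fin N → ℝ) → ℝ)
    (hf : IsTest f) (R ε : ℝ) (hε : 0 < ε) :
    ∃ δ : ℝ, 0 < δ ∧ δ ≤ 1 ∧ ∀ s t : ℝ≥0, s ≤ t → (t : ℝ) ≤ s + δ →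
      ∀ A, MeasurableSet[π.full s] A → (∀ ω ∈ A, ‖(π.X s ω, clock π.J s ω)‖ ≤ R) →
      |∫ ω in A, (f (π.X t ω, clock π.J t ω) - f (π.X s ω, clock π.J s ω)
        - ∑ j, gen μ f (π.X s ω) (clock π.J s ω) j (j = π.jstar ω)
            * (clock π.J t ω j - clock π.J s ω j)) ∂P| ≤ ε * ((t : ℝ) - s) := by
  classical
  have hJ := H78.FL.J_joint π.obs π.J π.J_prog
  have hXobs : ∀ r, Measurable[π.obs r] (π.X r) := π.X_adapted
  have hCobs : ∀ r, Measurable[π.obs r] (clock π.J r) := fun r =>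
    H78.FL.clock_measurable (π.obs r) π.J r (π.J_prog r)
  have hYfull : ∀ r, Measurable[π.full r] (fun ω => (π.X r ω, clock π.J r ω)) := fun r =>
    ((hXobs r).prodMk (hCobs r)).mono (π.obs_le r) le_rfl
  have hYm : ∀ r, Measurable (fun ω => (π.X r ω, clock π.J r ω)) := fun r =>
    (hYfull r).mono (π.full.le r) le_rfl
  have hCm : ∀ r j, Measurable (fun ω => clock π.J r ω j) := fun r j =>
    path_meas_clock π.J hJ r j
  have hMm : ∀ r j, Measurable (fun ω => π.M r ω j) := fun r j =>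
    (measurable_pi_apply j).comp ((π.M_adapted r).mono (π.full.le r) le_rfl)
  have hjs : Measurable π.jstar := (π.jstar_full).mono (π.full.le 0) le_rfl
  -- smoothness and bounds
  have hf1 : ContDiff ℝ 1 (fderiv ℝ f) := hf.smooth.fderiv_right (m := 1) (by norm_num)
  have hDc : Continuous (fderiv ℝ f) := hf1.continuous
  have hBc : Continuous (fderiv ℝ (fderiv ℝ f)) :=
    (hf1.fderiv_right (m := 0) (by norm_num)).continuous
  have hcomp : IsCompact (Metric.closedBall (0 : (Fin N → ℝ) × (Fin N → ℝ)) R) :=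
    isCompact_closedBall _ _
  obtain ⟨L1', hL1'⟩ := hcomp.exists_bound_of_continuousOn (f := fderiv ℝ f) hDc.continuousOn
  obtain ⟨L2', hL2'⟩ := hcomp.exists_bound_of_continuousOn (f := fderiv ℝ (fderiv ℝ f))
    hBc.continuousOn
  obtain ⟨L1, hL1e⟩ : ∃ L1, L1 = |L1'| := ⟨_, rfl⟩
  obtain ⟨L2, hL2e⟩ : ∃ L2, L2 = |L2'| := ⟨_, rfl⟩
  have hL10 : 0 ≤ L1 := by rw [hL1e]; exact abs_nonneg _
  have hL20 : 0 ≤ L2 := by rw [hL2e]; exact abs_nonneg _
  have hL1 : ∀ z, ‖z‖ ≤ R → ‖fderiv ℝ f z‖ ≤ L1 := fun z hz =>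
    (hL1' z (mem_closedBall_zero_iff.mpr hz)).trans (by rw [hL1e]; exact le_abs_self _)
  have hL2 : ∀ z, ‖z‖ ≤ R → ‖fderiv ℝ (fderiv ℝ f) z‖ ≤ L2 := fun z hz =>
    (hL2' z (mem_closedBall_zero_iff.mpr hz)).trans (by rw [hL2e]; exact le_abs_self _)
  obtain ⟨F0, hF0⟩ := hf.bdd
  have hF00 : 0 ≤ F0 := (abs_nonneg _).trans (hF0 0 0).1
  have hfb : ∀ z, |f z| ≤ F0 := fun z => (hF0 z.1 z.2).1
  obtain ⟨K, hK0, hK⟩ := gen_bound hf μ
  -- constants
  obtain ⟨C4, hC4⟩ : ∃ C4, C4 = (N : ℝ) * (25 + 8 * μ ^ 4) := ⟨_, rfl⟩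
  have hC40 : 0 ≤ C4 := by rw [hC4]; positivity
  obtain ⟨b, hb⟩ : ∃ b, b = 1 + |μ| := ⟨_, rfl⟩
  have hb0 : 0 ≤ b := by rw [hb]; positivity
  obtain ⟨ε1, hε1⟩ : ∃ ε1, ε1 = ε / (4 * (C4 + 1)) := ⟨_, rfl⟩
  have hε10 : 0 < ε1 := by rw [hε1]; positivity
  obtain ⟨κ, hκ⟩ : ∃ κ, κ = ε / (4 * (L2 * b + 1)) := ⟨_, rfl⟩
  have hκ0 : 0 < κ := by rw [hκ]; positivity
  obtain ⟨η, hη, hη1, htay⟩ := hTAY N f hf.smooth R ε1 hε10
  obtain ⟨L, hL⟩ : ∃ L, L = 2 * F0 + L1 + L2 := ⟨_, rfl⟩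
  have hL0 : 0 ≤ L := by rw [hL]; positivity
  obtain ⟨Q, hQ⟩ : ∃ Q, Q = (3 / 2) * L2 * b ^ 2 + L2 * b / κ * (1 + C4) + L / η ^ 4 * C4 :=
    ⟨_, rfl⟩
  have hQ0 : 0 ≤ Q := by rw [hQ]; positivity
  obtain ⟨δ, hδ⟩ : ∃ δ, δ = min 1 (ε / (4 * (Q + 1))) := ⟨_, rfl⟩
  have hδ0 : 0 < δ := by rw [hδ]; positivity
  have hδ1 : δ ≤ 1 := by rw [hδ]; exact min_le_left _ _
  have hδQ : Q * δ ≤ ε / 4 := by
    have h1 : δ ≤ ε / (4 * (Q + 1)) := by rw [hδ]; exact min_le_right _ _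
    have h2 : δ * (4 * (Q + 1)) ≤ ε := by rwa [le_div_iff₀ (by positivity)] at h1
    nlinarith
  refine ⟨δ, hδ0, hδ1, fun s t hst hts A hA hAR => ?_⟩
  have hAm : MeasurableSet A := π.full.le s A hA
  rcases hst.eq_or_lt with rfl | hlt
  · simp
  have hlt' : (s : ℝ) < t := by exact_mod_cast hlt
  obtain ⟨τ, hτ⟩ : ∃ τ, τ = (t : ℝ) - s := ⟨_, rfl⟩
  have hτ0 : 0 < τ := by rw [hτ]; linarith
  have hτδ : τ ≤ δ := by rw [hτ]; linarith
  have hτ1 : τ ≤ 1 := hτδ.trans hδ1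
  rw [← hτ]
  -- increments
  obtain ⟨m, hm⟩ : ∃ m : Ω → Fin N → ℝ, m = fun ω j => π.M t ω j - π.M s ω j := ⟨_, rfl⟩
  obtain ⟨c, hc⟩ : ∃ c : Ω → Fin N → ℝ, c = fun ω j => clock π.J t ω j - clock π.J s ω j := ⟨_, rfl⟩
  obtain ⟨x, hx⟩ : ∃ x : Ω → Fin N → ℝ, x = fun ω j =>
    (if j = π.jstar ω then μ else 0) * c ω j := ⟨_, rfl⟩
  have hc0 : ∀ ω j, 0 ≤ c ω j ∧ c ω j ≤ τ := by
    intro ω j
    have := clock_diff_bounds π.J hJ ω s t hst j
    rw [hc, hτ]
    exact this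
  have hd : ∀ ω, (π.X t ω, clock π.J t ω) = (π.X s ω, clock π.J s ω) + ((m ω, 0) + (x ω, c ω)) := by
    intro ω
    refine Prod.ext ?_ ?_
    · funext j
      simp only [Prod.fst_add, Pi.add_apply, hm, hx, hc]
      rw [π.X_eq, π.X_eq]
      by_cases h : π.jstar ω = j
      · rw [if_pos h, if_pos h, if_pos h.symm]; ring
      · rw [if_neg h, if_neg h, if_neg (Ne.symm h)]; ring
    · funext j
      simp only [Prod.snd_add, Pi.add_apply, hc, Pi.zero_apply]
      ring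
  have hmm : ∀ j, Measurable (fun ω => m ω j) := fun j => by
    rw [hm]; exact (hMm t j).sub (hMm s j)
  have hcm : ∀ j, Measurable (fun ω => c ω j) := fun j => by
    rw [hc]; exact (hCm t j).sub (hCm s j)
  have hm4 : ∀ j, Integrable (fun ω => m ω j ^ 4) P := fun j => by
    rw [hm]
    exact (hIT2 N Ω P π.full π.W π.W_fbm π.J π.M (prog_full π) π.M_adapted π.M_ito s t hst j j).1
  have hmi : ∀ j, Integrable (fun ω => m ω j) P := fun j => int_one (hmm j) (hm4 j)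
  have hmmi : ∀ i j, Integrable (fun ω => m ω i * m ω j) P := fun i j =>
    int_sq (hmm i) (hmm j) (hm4 i) (hm4 j)
  have hci : ∀ j, Integrable (fun ω => c ω j) P := fun j =>
    Integrable.of_bound (hcm j).aestronglyMeasurable τ (Filter.Eventually.of_forall fun ω => by
      rw [Real.norm_eq_abs, abs_of_nonneg (hc0 ω j).1]; exact (hc0 ω j).2)
  -- the weights
  obtain ⟨g, hg⟩ : ∃ g : Fin N → Ω → ℝ, g = fun j => A.indicator (fun ω =>
    fderiv ℝ f (π.X s ω, clock π.J s ω) (ee j)) := ⟨_, rfl⟩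
  obtain ⟨h, hh⟩ : ∃ h : Fin N → Fin N → Ω → ℝ, h = fun i j => A.indicator (fun ω =>
    fderiv ℝ (fderiv ℝ f) (π.X s ω, clock π.J s ω) (ee i) (ee j)) := ⟨_, rfl⟩
  have hgfull : ∀ j, Measurable[π.full s] (g j) := by
    intro j
    rw [hg]
    refine Measurable.indicator ?_ hA
    have h1 : Continuous (fun z => fderiv ℝ f z (ee j)) := hDc.clm_apply continuous_const
    exact h1.measurable.comp (hYfull s)
  have hhfull : ∀ i j, Measurable[π.full s] (h i j) := by
    intro i j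
    rw [hh]
    refine Measurable.indicator ?_ hA
    have h1 : Continuous (fun z => fderiv ℝ (fderiv ℝ f) z (ee i) (ee j)) :=
      (hBc.clm_apply continuous_const).clm_apply continuous_const
    exact h1.measurable.comp (hYfull s)
  have hgb : ∀ j ω, |g j ω| ≤ L1 := by
    intro j ω
    rw [hg]
    by_cases hω : ω ∈ A
    · simp only [indicator_of_mem hω]
      rw [← Real.norm_eq_abs]
      calc ‖fderiv ℝ f (π.X s ω, clock π.J s ω) (ee j)‖
          ≤ ‖fderiv ℝ f (π.X s ω, clock π.J s ω)‖ * ‖(ee j : (Fin N → ℝ) × (Fin N → ℝ))‖ :=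
            ContinuousLinearMap.le_opNorm _ _
        _ ≤ L1 * 1 := mul_le_mul (hL1 _ (hAR ω hω)) (norm_ee j) (norm_nonneg _) hL10
        _ = L1 := mul_one _
    · simp only [indicator_of_notMem hω, abs_zero]
      exact hL10
  have hhb : ∀ i j ω, |h i j ω| ≤ L2 := by
    intro i j ω
    rw [hh]
    by_cases hω : ω ∈ A
    · simp only [indicator_of_mem hω]
      rw [← Real.norm_eq_abs]
      calc ‖fderiv ℝ (fderiv ℝ f) (π.X s ω, clock π.J s ω) (ee i) (ee j)‖
          ≤ ‖fderiv ℝ (fderiv ℝ f) (π.X s ω, clock π.J s ω)‖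
            * ‖(ee i : (Fin N → ℝ) × (Fin N → ℝ))‖ * ‖(ee j : (Fin N → ℝ) × (Fin N → ℝ))‖ :=
            ContinuousLinearMap.le_opNorm₂ _ _ _
        _ ≤ L2 * 1 * 1 := mul_le_mul (mul_le_mul (hL2 _ (hAR ω hω)) (norm_ee i) (norm_nonneg _)
            hL20) (norm_ee j) (norm_nonneg _) (by positivity)
        _ = L2 := by ring
    · simp only [indicator_of_notMem hω, abs_zero]
      exact hL20
  have hgm : ∀ j, Measurable (g j) := fun j => (hgfull j).mono (π.full.le s) le_rfl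
  have hhm : ∀ i j, Measurable (h i j) := fun i j => (hhfull i j).mono (π.full.le s) le_rfl
  -- the two vanishing terms
  have hlin : ∫ ω, ∑ j, g j ω * m ω j ∂P = 0 := by
    rw [integral_finsetSum _ fun j _ => int_bdd (hgm j) (hgb j) (hmi j)]
    refine Finset.sum_eq_zero fun j _ => ?_
    have := (hWGT N Ω P π.full π.W π.W_fbm π.J π.M (prog_full π) π.M_adapted π.M_ito s t hst j j
      (g j) L1 (hgfull j) (hgb j)).1
    rw [hm]
    exact this
  have hquad : ∫ ω, (∑ i, ∑ j, h i j ω * (m ω i * m ω j) - ∑ j, h j j ω * c ω j) ∂P = 0 := by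
    have hi1 : ∀ i j, Integrable (fun ω => h i j ω * (m ω i * m ω j)) P := fun i j =>
      int_bdd (hhm i j) (hhb i j) (hmmi i j)
    have hi2 : ∀ j, Integrable (fun ω => h j j ω * c ω j) P := fun j =>
      int_bdd (hhm j j) (hhb j j) (hci j)
    rw [integral_sub (integrable_finsetSum _ fun i _ => integrable_finsetSum _ fun j _ => hi1 i j)
      (integrable_finsetSum _ fun j _ => hi2 j),
      integral_finsetSum _ (fun i _ => integrable_finsetSum _ fun j _ => hi1 i j),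
      integral_finsetSum _ (fun j _ => hi2 j), sub_eq_zero]
    refine Finset.sum_congr rfl fun i _ => ?_
    rw [integral_finsetSum _ (fun j _ => hi1 i j), Finset.sum_eq_single i]
    · have := (hWGT N Ω P π.full π.W π.W_fbm π.J π.M (prog_full π) π.M_adapted π.M_ito s t hst i i
        (h i i) L2 (hhfull i i) (hhb i i)).2
      rw [hm, hc]
      simpa only [if_true] using this
    · intro j _ hji
      have := (hWGT N Ω P π.full π.W π.W_fbm π.J π.M (prog_full π) π.M_adapted π.M_ito s t hst i j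
        (h i j) L2 (hhfull i j) (hhb i j)).2
      rw [hm]
      rw [this]
      simp only [if_neg (Ne.symm hji), mul_zero, integral_zero]
    · intro hi
      exact absurd (Finset.mem_univ i) hi
  -- the integrand
  obtain ⟨I, hI⟩ : ∃ I : Ω → ℝ, I = fun ω => f (π.X t ω, clock π.J t ω)
        - f (π.X s ω, clock π.J s ω)
        - ∑ j, gen μ f (π.X s ω) (clock π.J s ω) j (j = π.jstar ω) * c ω j := ⟨_, rfl⟩
  have hgenm : ∀ j : Fin N, Measurable (fun ω =>
      gen μ f (π.X s ω) (clock π.J s ω) j (j = π.jstar ω)) := by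
    intro j
    exact gen_meas_fix μ (hYm s) hjs hf.smooth j
  have hfc : Continuous f := hf.smooth.continuous
  have hIi : Integrable I P := by
    rw [hI]
    have h1 : ∀ r : ℝ≥0, Integrable (fun ω => f (π.X r ω, clock π.J r ω)) P := fun r =>
      Integrable.of_bound (hfc.measurable.comp (hYm r)).aestronglyMeasurable F0
        (Filter.Eventually.of_forall fun ω => by rw [Real.norm_eq_abs]; exact hfb _)
    exact ((h1 t).sub (h1 s)).sub (integrable_finsetSum _ fun j _ =>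
      int_bdd (hgenm j) (fun ω => hK _ _ _ _) (hci j))
  have hlini : Integrable (fun ω => ∑ j, g j ω * m ω j) P :=
    integrable_finsetSum _ fun j _ => int_bdd (hgm j) (hgb j) (hmi j)
  have hquadi : Integrable (fun ω => ∑ i, ∑ j, h i j ω * (m ω i * m ω j)
      - ∑ j, h j j ω * c ω j) P :=
    (integrable_finsetSum _ fun i _ => integrable_finsetSum _ fun j _ =>
      int_bdd (hhm i j) (hhb i j) (hmmi i j)).sub
      (integrable_finsetSum _ fun j _ => int_bdd (hhm j j) (hhb j j) (hci j))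
  -- the pointwise bound
  have hpt : ∀ ω ∈ A, |I ω - ∑ j, g j ω * m ω j - (1 / 2) * (∑ i, ∑ j, h i j ω * (m ω i * m ω j)
      - ∑ j, h j j ω * c ω j)| ≤
      (L2 * b * κ * τ + (3 / 2) * L2 * b ^ 2 * τ ^ 2 + (L2 * b * τ / κ + ε1) * (τ / 2))
      + ((L2 * b * τ / κ + ε1) / (2 * τ) + L / η ^ 4)
        * ‖(π.X t ω, clock π.J t ω) - (π.X s ω, clock π.J s ω)‖ ^ 4 := by
    intro ω hω
    obtain ⟨z, hz⟩ : ∃ z : (Fin N → ℝ) × (Fin N → ℝ), z = (π.X s ω, clock π.J s ω) := ⟨_, rfl⟩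
    have hzR : ‖z‖ ≤ R := by rw [hz]; exact hAR ω hω
    have hgω : ∀ j, g j ω = fderiv ℝ f z (ee j) := by
      intro j; rw [hg, hz]; simp only [indicator_of_mem hω]
    have hhω : ∀ i j, h i j ω = fderiv ℝ (fderiv ℝ f) z (ee i) (ee j) := by
      intro i j; rw [hh, hz]; simp only [indicator_of_mem hω]
    simp only [hgω, hhω]
    have hgen : ∀ j, gen μ f (π.X s ω) (clock π.J s ω) j (j = π.jstar ω) * c ω j
        = (1 / 2) * (fderiv ℝ (fderiv ℝ f) z (ee j) (ee j) * c ω j)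
          + x ω j * fderiv ℝ f z (ee j) + c ω j * fderiv ℝ f z (ee' j) := by
      intro j
      obtain ⟨p1, p2, p3⟩ := (hPAR N f hf.smooth j).1 (π.X s ω) (clock π.J s ω)
      unfold gen
      rw [p1, p2, p3, hx, hz]
      simp only [ee, ee']
      ring
    have halg := ito_alg (fderiv ℝ f z) (fderiv ℝ (fderiv ℝ f) z) (m ω) (x ω) (c ω)
      (fun j => gen μ f (π.X s ω) (clock π.J s ω) j (j = π.jstar ω))
      (f (π.X t ω, clock π.J t ω)) (f z) hgen
    have hIω : I ω = f (π.X t ω, clock π.J t ω) - f z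
        - ∑ j, gen μ f (π.X s ω) (clock π.J s ω) j (j = π.jstar ω) * c ω j := by
      rw [hI, hz]
    rw [hIω]
    rw [halg]
    obtain ⟨d, hdd⟩ : ∃ d : (Fin N → ℝ) × (Fin N → ℝ), d = (m ω, 0) + (x ω, c ω) := ⟨_, rfl⟩
    have hdz : (π.X t ω, clock π.J t ω) = z + d := by rw [hd ω, hz, hdd]
    rw [← hdd, hdz, ← hz, add_sub_cancel_left]
    -- norms
    have hx2 : ‖((x ω, c ω) : (Fin N → ℝ) × (Fin N → ℝ))‖ ≤ b * τ := by
      have hbτ : 0 ≤ b * τ := by positivity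
      rw [Prod.norm_def]
      apply max_le
      · rw [pi_norm_le_iff_of_nonneg hbτ]
        intro j
        rw [hx, Real.norm_eq_abs, abs_mul, abs_of_nonneg (hc0 ω j).1]
        apply mul_le_mul _ (hc0 ω j).2 (hc0 ω j).1 hb0
        rw [hb]
        split_ifs
        · linarith
        · rw [abs_zero]; positivity
      · rw [pi_norm_le_iff_of_nonneg hbτ]
        intro j
        rw [Real.norm_eq_abs, abs_of_nonneg (hc0 ω j).1]
        have h1 : 1 ≤ b := by rw [hb]; linarith [abs_nonneg μ]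
        nlinarith [(hc0 ω j).2]
    have hm1 : ‖((m ω, 0) : (Fin N → ℝ) × (Fin N → ℝ))‖ ≤ ‖d‖ + b * τ := by
      have h1 : ((m ω, 0) : (Fin N → ℝ) × (Fin N → ℝ)) = d - (x ω, c ω) := by rw [hdd]; simp
      rw [h1]
      exact (norm_sub_le _ _).trans (by linarith)
    have hB := hL2 z hzR
    have hcross : |fderiv ℝ (fderiv ℝ f) z (m ω, 0) (x ω, c ω)
        + fderiv ℝ (fderiv ℝ f) z (x ω, c ω) (m ω, 0)
        + fderiv ℝ (fderiv ℝ f) z (x ω, c ω) (x ω, c ω)| ≤
        L2 * (2 * b * τ * ‖d‖ + 3 * b ^ 2 * τ ^ 2) := by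
      have hb2 : ∀ v w : (Fin N → ℝ) × (Fin N → ℝ),
          |fderiv ℝ (fderiv ℝ f) z v w| ≤ L2 * (‖v‖ * ‖w‖) := by
        intro v w
        rw [← Real.norm_eq_abs]
        calc ‖fderiv ℝ (fderiv ℝ f) z v w‖ ≤ ‖fderiv ℝ (fderiv ℝ f) z‖ * ‖v‖ * ‖w‖ :=
              ContinuousLinearMap.le_opNorm₂ _ _ _
          _ ≤ L2 * ‖v‖ * ‖w‖ := by gcongr
          _ = L2 * (‖v‖ * ‖w‖) := by ring
      have q1 : ‖((m ω, 0) : (Fin N → ℝ) × (Fin N → ℝ))‖
          * ‖((x ω, c ω) : (Fin N → ℝ) × (Fin N → ℝ))‖ ≤ (‖d‖ + b * τ) * (b * τ) :=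
        mul_le_mul hm1 hx2 (norm_nonneg _) (by positivity)
      have q2 : ‖((x ω, c ω) : (Fin N → ℝ) × (Fin N → ℝ))‖
          * ‖((m ω, 0) : (Fin N → ℝ) × (Fin N → ℝ))‖ ≤ (‖d‖ + b * τ) * (b * τ) := by
        rw [mul_comm]; exact q1
      have q3 : ‖((x ω, c ω) : (Fin N → ℝ) × (Fin N → ℝ))‖
          * ‖((x ω, c ω) : (Fin N → ℝ) × (Fin N → ℝ))‖ ≤ (b * τ) * (b * τ) :=
        mul_le_mul hx2 hx2 (norm_nonneg _) (by positivity)
      have r1 := (hb2 (m ω, 0) (x ω, c ω)).trans (mul_le_mul_of_nonneg_left q1 hL20)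
      have r2 := (hb2 (x ω, c ω) (m ω, 0)).trans (mul_le_mul_of_nonneg_left q2 hL20)
      have r3 := (hb2 (x ω, c ω) (x ω, c ω)).trans (mul_le_mul_of_nonneg_left q3 hL20)
      refine (abs_add_le _ _).trans ((add_le_add ((abs_add_le _ _).trans (add_le_add r1 r2))
        r3).trans (le_of_eq ?_))
      ring
    have hrem := rem_est (F0 := F0) (L1 := L1) (L2 := L2) (ε1 := ε1) (η := η)
      (rem := f (z + d) - f z - fderiv ℝ f z d - (1 / 2) * fderiv ℝ (fderiv ℝ f) z d d)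
      (nd := ‖d‖) hF00 hL10 hL20 hε10.le hη hη1 (norm_nonneg _) (fun hle => htay z d hzR hle) (by
        have a1 := hfb (z + d)
        have a2 := hfb z
        have a3 : |fderiv ℝ f z d| ≤ L1 * ‖d‖ := by
          rw [← Real.norm_eq_abs]
          exact (ContinuousLinearMap.le_opNorm _ _).trans
            (mul_le_mul_of_nonneg_right (hL1 z hzR) (norm_nonneg _))
        have a4 : |fderiv ℝ (fderiv ℝ f) z d d| ≤ L2 * ‖d‖ ^ 2 := by
          rw [← Real.norm_eq_abs]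
          calc ‖fderiv ℝ (fderiv ℝ f) z d d‖ ≤ ‖fderiv ℝ (fderiv ℝ f) z‖ * ‖d‖ * ‖d‖ :=
                ContinuousLinearMap.le_opNorm₂ _ _ _
            _ ≤ L2 * ‖d‖ * ‖d‖ := by gcongr
            _ = L2 * ‖d‖ ^ 2 := by ring
        rw [abs_le] at a1 a2 a3 a4 ⊢
        constructor <;> linarith [a1.1, a1.2, a2.1, a2.2, a3.1, a3.2, a4.1, a4.2])
    have htot := tot_est (ε1 := ε1) (κ := κ) (τ := τ) (b := b) (L2 := L2) (L := L) (η := η)
      (nd := ‖d‖) (C4 := C4) hκ0 hτ0 hb0 hL20 hL0 hη hε10.le (norm_nonneg _)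
    refine le_trans ?_ htot
    rw [← hL] at hrem
    refine (abs_add_le _ _).trans ?_
    rw [abs_mul, abs_of_pos (by norm_num : (0 : ℝ) < 1 / 2)]
    have := mul_le_mul_of_nonneg_left hcross (by norm_num : (0 : ℝ) ≤ 1 / 2)
    linarith
  -- integrate
  have hrs1 : (t : ℝ) ≤ s + 1 := by linarith
  obtain ⟨hdi, hdb⟩ := mom hIT2 π s t hst hrs1
  rw [← hC4, ← hτ] at hdb
  have hlinA : ∫ ω in A, ∑ j, g j ω * m ω j ∂P = 0 := by
    rw [← hlin]
    apply setIntegral_eq_integral_of_forall_compl_eq_zero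
    intro ω hω
    refine Finset.sum_eq_zero fun j _ => ?_
    rw [hg]
    simp only [indicator_of_notMem hω, zero_mul]
  have hquadA : ∫ ω in A, (∑ i, ∑ j, h i j ω * (m ω i * m ω j) - ∑ j, h j j ω * c ω j) ∂P = 0 := by
    rw [← hquad]
    apply setIntegral_eq_integral_of_forall_compl_eq_zero
    intro ω hω
    rw [hh]
    simp only [indicator_of_notMem hω, zero_mul, Finset.sum_const_zero, sub_zero]
  have hsplit : ∫ ω in A, I ω ∂P = ∫ ω in A, (I ω - ∑ j, g j ω * m ω j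
      - (1 / 2) * (∑ i, ∑ j, h i j ω * (m ω i * m ω j) - ∑ j, h j j ω * c ω j)) ∂P := by
    have hi1 : Integrable (fun ω => I ω - ∑ j, g j ω * m ω j) (P.restrict A) :=
      (hIi.sub hlini).integrableOn
    have hi2 : Integrable (fun ω => (1 / 2) * (∑ i, ∑ j, h i j ω * (m ω i * m ω j)
      - ∑ j, h j j ω * c ω j)) (P.restrict A) := (hquadi.const_mul _).integrableOn
    rw [integral_sub hi1 hi2, integral_sub hIi.integrableOn hlini.integrableOn, hlinA,
      integral_const_mul, hquadA]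
    ring
  have hgoal : ∫ ω in A, (f (π.X t ω, clock π.J t ω) - f (π.X s ω, clock π.J s ω)
        - ∑ j, gen μ f (π.X s ω) (clock π.J s ω) j (j = π.jstar ω)
            * (clock π.J t ω j - clock π.J s ω j)) ∂P = ∫ ω in A, I ω ∂P := by
    rw [hI, hc]
  rw [hgoal, hsplit]
  obtain ⟨a1, ha1⟩ : ∃ a1, a1 = L2 * b * κ * τ + (3 / 2) * L2 * b ^ 2 * τ ^ 2
    + (L2 * b * τ / κ + ε1) * (τ / 2) := ⟨_, rfl⟩
  obtain ⟨a2, ha2⟩ : ∃ a2, a2 = (L2 * b * τ / κ + ε1) / (2 * τ) + L / η ^ 4 := ⟨_, rfl⟩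
  have ha10 : 0 ≤ a1 := by rw [ha1]; positivity
  have ha20 : 0 ≤ a2 := by rw [ha2]; positivity
  rw [← ha1, ← ha2] at hpt
  have hbi : Integrable (fun ω => a1 + a2 *
      ‖(π.X t ω, clock π.J t ω) - (π.X s ω, clock π.J s ω)‖ ^ 4) P :=
    (integrable_const _).add (hdi.const_mul _)
  have hbound : ∫ ω in A, (a1 + a2 *
      ‖(π.X t ω, clock π.J t ω) - (π.X s ω, clock π.J s ω)‖ ^ 4) ∂P ≤ a1 + a2 * (C4 * τ ^ 2) := by
    have h1 : ∫ ω in A, (a1 + a2 *
        ‖(π.X t ω, clock π.J t ω) - (π.X s ω, clock π.J s ω)‖ ^ 4) ∂P ≤ ∫ ω, (a1 + a2 *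
        ‖(π.X t ω, clock π.J t ω) - (π.X s ω, clock π.J s ω)‖ ^ 4) ∂P := by
      apply setIntegral_le_integral hbi
      exact Filter.Eventually.of_forall fun ω => by
        show (0 : ℝ) ≤ a1 + a2 * ‖(π.X t ω, clock π.J t ω) - (π.X s ω, clock π.J s ω)‖ ^ 4
        positivity
    have h2 : ∫ ω, (a1 + a2 *
        ‖(π.X t ω, clock π.J t ω) - (π.X s ω, clock π.J s ω)‖ ^ 4) ∂P = a1 + a2 *
        ∫ ω, ‖(π.X t ω, clock π.J t ω) - (π.X s ω, clock π.J s ω)‖ ^ 4 ∂P := by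
      rw [integral_add (integrable_const _) (hdi.const_mul _), integral_const_mul]
      simp
    have h3 := mul_le_mul_of_nonneg_left hdb ha20
    linarith
  have hfinal : a1 + a2 * (C4 * τ ^ 2) ≤ ε * τ := by
    have e1 : a1 + a2 * (C4 * τ ^ 2) = (L2 * b * κ) * τ + (ε1 * (1 + C4) / 2) * τ
        + ((3 / 2) * L2 * b ^ 2 + L2 * b / κ * (1 + C4) / 2 + L / η ^ 4 * C4) * τ * τ := by
      rw [ha1, ha2]
      field_simp
      ring
    have e2 : L2 * b * κ ≤ ε / 4 := by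
      rw [hκ, mul_div_assoc', div_le_div_iff₀ (by positivity) (by norm_num)]
      nlinarith [mul_nonneg hL20 hb0]
    have e3 : ε1 * (1 + C4) / 2 ≤ ε / 4 := by
      have : ε1 * (1 + C4) = ε / 4 := by
        rw [hε1]
        field_simp
        ring
      rw [this]
      linarith
    have e4 : ((3 / 2) * L2 * b ^ 2 + L2 * b / κ * (1 + C4) / 2 + L / η ^ 4 * C4) ≤ Q := by
      rw [hQ]
      have : 0 ≤ L2 * b / κ * (1 + C4) := by positivity
      linarith
    have e5 : ((3 / 2) * L2 * b ^ 2 + L2 * b / κ * (1 + C4) / 2 + L / η ^ 4 * C4) * τ ≤ ε / 4 :=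
      (mul_le_mul e4 hτδ hτ0.le hQ0).trans hδQ
    rw [e1]
    nlinarith
  refine le_trans ?_ (hbound.trans hfinal)
  rw [← Real.norm_eq_abs]
  refine norm_integral_le_of_norm_le hbi.integrableOn ?_
  refine (ae_restrict_iff' hAm).mpr (Filter.Eventually.of_forall fun ω hω => ?_)
  rw [Real.norm_eq_abs]
  exact hpt ω hω

theorem t_IST (hIT2 : S_IT2.{u}) (hWGT : S_WGT.{u}) (hTAY : S_TAY) (hPAR : S_PAR) :
    S_IST.{u} := by
  intro N μ Ω mΩ P _ π f hf R ε hε
  obtain ⟨δ1, hδ1, hδ11, h1⟩ := is12 hIT2 hWGT hTAY hPAR π f hf R (ε / 2) (by positivity)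
  obtain ⟨δ2, hδ2, hδ21, h2⟩ := is3 π f hf _ R (ε / 2) (by positivity) (mom hIT2 π)
  refine ⟨min δ1 δ2, lt_min hδ1 hδ2, fun s t hst hts A hA hAR => ?_⟩
  have hst' : (s : ℝ) ≤ t := by exact_mod_cast hst
  have hAm : MeasurableSet A := π.full.le s A hA
  have a1 := h1 s t hst (hts.trans (by gcongr; exact min_le_left _ _)) A hA hAR
  have a2 := h2 s t hst (hts.trans (by gcongr; exact min_le_right _ _)) A hAm hAR
  -- integrability
  have hJ := H78.FL.J_joint π.obs π.J π.J_prog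
  have hXm : ∀ r, Measurable (π.X r) := fun r => (π.X_adapted r).mono (π.obs.le r) le_rfl
  have hcl := clock_cont π.J hJ
  have hXc : ∀ ω, Continuous fun t => π.X t ω := by
    intro ω
    have h1 : (fun t => π.X t ω) = fun t => fun j => π.M t ω j +
        μ * (if π.jstar ω = j then clock π.J t ω j else 0) := by
      funext t j
      exact π.X_eq t ω j
    rw [h1]
    refine continuous_pi fun j => ?_
    have h2 : Continuous fun t => π.M t ω j := (continuous_apply j).comp (π.M_cont ω)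
    have h3 : Continuous fun t => clock π.J t ω j := (continuous_apply j).comp (hcl ω)
    split_ifs
    · exact h2.add (continuous_const.mul h3)
    · exact h2.add continuous_const
  have hCm : ∀ r, Measurable (clock π.J r) := fun r =>
    measurable_pi_lambda _ fun j => path_meas_clock π.J hJ r j
  have hXu : Measurable (Function.uncurry π.X) :=
    measurable_uncurry_of_continuous_of_measurable hXc hXm
  have hCu : Measurable (Function.uncurry (clock π.J)) :=
    measurable_uncurry_of_continuous_of_measurable hcl hCm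
  have hYu : Measurable (fun p : ℝ≥0 × Ω => (π.X p.1 p.2, clock π.J p.1 p.2)) := hXu.prodMk hCu
  have hYm : ∀ r, Measurable (fun ω => (π.X r ω, clock π.J r ω)) := fun r =>
    (hXm r).prodMk (hCm r)
  have hjs : Measurable π.jstar := (π.jstar_full).mono (π.full.le 0) le_rfl
  obtain ⟨K, hK0, hK⟩ := gen_bound hf μ
  obtain ⟨F0, hF0⟩ := hf.bdd
  have hfc : Continuous f := hf.smooth.continuous
  have hfi : ∀ r : ℝ≥0, Integrable (fun ω => f (π.X r ω, clock π.J r ω)) (P.restrict A) := fun r =>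
    Integrable.of_bound (hfc.measurable.comp (hYm r)).aestronglyMeasurable F0
      (Filter.Eventually.of_forall fun ω => by rw [Real.norm_eq_abs]; exact (hF0 _ _).1)
  have hgenm : ∀ j : Fin N, Measurable (fun ω =>
      gen μ f (π.X s ω) (clock π.J s ω) j (j = π.jstar ω)) := by
    intro j
    exact gen_meas_fix μ (hYm s) hjs hf.smooth j
  have hsi : Integrable (fun ω => ∑ j, gen μ f (π.X s ω) (clock π.J s ω) j (j = π.jstar ω)
      * (clock π.J t ω j - clock π.J s ω j)) (P.restrict A) := by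
    refine integrable_finsetSum _ fun j _ => int_bdd (hgenm j) (fun ω => hK _ _ _ _) ?_
    refine Integrable.of_bound ((path_meas_clock π.J hJ t j).sub
      (path_meas_clock π.J hJ s j)).aestronglyMeasurable ((t : ℝ) - s)
      (Filter.Eventually.of_forall fun ω => ?_)
    have := clock_diff_bounds π.J hJ ω s t hst j
    rw [Real.norm_eq_abs, abs_of_nonneg this.1]
    exact this.2
  have hgi := path_integrable (P := P) (gen_meas' μ (js := π.jstar) hYu hJ hjs hf.smooth)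
    (C := K) (fun r ω => hK _ _ _ _) s t hst' A
  have e1 : ∫ ω in A, (f (π.X t ω, clock π.J t ω) - f (π.X s ω, clock π.J s ω)
      - ∫ r in (s : ℝ)..t, gen μ f (π.X r.toNNReal ω) (clock π.J r.toNNReal ω)
          (π.J r.toNNReal ω) (π.J r.toNNReal ω = π.jstar ω)) ∂P
      = ∫ ω in A, (f (π.X t ω, clock π.J t ω) - f (π.X s ω, clock π.J s ω)
        - ∑ j, gen μ f (π.X s ω) (clock π.J s ω) j (j = π.jstar ω)
            * (clock π.J t ω j - clock π.J s ω j)) ∂P
        + ∫ ω in A, (∑ j, gen μ f (π.X s ω) (clock π.J s ω) j (j = π.jstar ω)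
            * (clock π.J t ω j - clock π.J s ω j)
          - ∫ r in (s : ℝ)..t, gen μ f (π.X r.toNNReal ω) (clock π.J r.toNNReal ω)
            (π.J r.toNNReal ω) (π.J r.toNNReal ω = π.jstar ω)) ∂P := by
    have i1 : Integrable (fun ω => f (π.X t ω, clock π.J t ω) - f (π.X s ω, clock π.J s ω)
        - ∑ j, gen μ f (π.X s ω) (clock π.J s ω) j (j = π.jstar ω)
            * (clock π.J t ω j - clock π.J s ω j)) (P.restrict A) :=
      ((hfi t).sub (hfi s)).sub hsi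
    have i2 : Integrable (fun ω => ∑ j, gen μ f (π.X s ω) (clock π.J s ω) j (j = π.jstar ω)
            * (clock π.J t ω j - clock π.J s ω j)
          - ∫ r in (s : ℝ)..t, gen μ f (π.X r.toNNReal ω) (clock π.J r.toNNReal ω)
            (π.J r.toNNReal ω) (π.J r.toNNReal ω = π.jstar ω)) (P.restrict A) := hsi.sub hgi
    rw [← integral_add i1 i2]
    congr 1
    funext ω
    ring
  rw [e1]
  refine (abs_add_le _ _).trans ((add_le_add a1 a2).trans (le_of_eq ?_))
  ring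

end H99.FL
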