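import Pool.Agent.H5.FL.Stm

set_option autoImplicit false

open Set

namespace H99.FL

open H5.FL

lemma hasDerivAt_log1 {p : ℝ} (hp1 : p < 1) :
    HasDerivAt (fun p : ℝ => Real.log (1 - p)) (-(1 / (1 - p))) p := by
  have hq : (1 : ℝ) - p ≠ 0 := by linarith
  have h := ((hasDerivAt_id' p).const_sub (1 : ℝ)).log hq
  refine h.congr_deriv ?_
  field_simp

lemma hasDerivAt_log2 {p : ℝ} (hp : 0 < p) (hp1 : p < 1) :
    HasDerivAt (fun p : ℝ => Real.log (p / (1 - p))) (1 / (p * (1 - p))) p := by
  have hq : (1 : ℝ) - p ≠ 0 := by linarith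
  have hq' : (0 : ℝ) < 1 - p := by linarith
  have h0 : HasDerivAt (fun x : ℝ => x / (1 - x)) (1 / (1 - p) ^ 2) p := by
    have h := (hasDerivAt_id' p).div ((hasDerivAt_id' p).const_sub (1 : ℝ)) hq
    refine h.congr_deriv ?_
    field_simp
    ring
  have h := h0.log (by positivity)
  refine h.congr_deriv ?_
  field_simp

theorem t_GGD : S_GGD := by
  intro M hM p hp hp1
  have hq : (1 : ℝ) - p ≠ 0 := by linarith
  have hq' : (0 : ℝ) < 1 - p := by linarith
  have hM1 : M - 1 ≠ 0 := by linarith
  have h1 := hasDerivAt_log1 hp1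
  have h2 := hasDerivAt_log2 hp hp1
  have hid : HasDerivAt (fun p : ℝ => p) 1 p := hasDerivAt_id p
  have hlin : HasDerivAt (fun p : ℝ => 2 * p - 1) 2 p := by
    have := (hid.const_mul 2).sub_const 1
    simpa using this
  have h1p : HasDerivAt (fun p : ℝ => 1 - p) (-1) p := by
    have := hid.const_sub 1
    simpa using this
  constructor
  · have h := ((hlin.mul h2).add (h1.const_mul (M - 1))).sub
      ((h1p.const_mul (M / (M - 1))).mul h1)
    refine (h.congr_deriv ?_).congr_of_eventuallyEq (Filter.Eventually.of_forall fun x => ?_)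
    · unfold gg1
      field_simp
      ring
    · simp only [gg, Pi.add_apply, Pi.sub_apply, Pi.mul_apply]
  · have hden : p * (1 - p) ≠ 0 := by positivity
    have h3 := hlin.div (hid.mul h1p) (by simpa using hden)
    have h4 := (hasDerivAt_const p (M - 1)).div h1p hq
    have h := (((h2.const_mul 2).add h3).sub h4).add (h1.const_mul (M / (M - 1)))
    have h' := h.add_const (M / (M - 1))
    refine (h'.congr_deriv ?_).congr_of_eventuallyEq (Filter.Eventually.of_forall fun x => ?_)
    · unfold rr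
      simp only [Pi.mul_apply]
      field_simp
      ring
    · simp only [gg1, Pi.add_apply, Pi.sub_apply, Pi.mul_apply, Pi.div_apply]

theorem t_CLO (hPHD : S_PHD) (hGGD : S_GGD) (hPMN : S_PMN) : S_CLO := by
  intro M q hM hMq hq
  have hM0 : (0 : ℝ) < 1 / M := by positivity
  have e1 : ∀ b, 1 / M ≤ b → b ≤ q → phi1 M q b = gg1 M b - gg1 M (1 / M) := by
    intro b hb hbq
    have hcont : ContinuousOn (fun x => phi1 M q x - gg1 M x) (Icc (1 / M) q) := by
      intro x hx
      exact (((hPHD M q hM hq x (lt_of_lt_of_le hM0 hx.1)).2.continuousAt).sub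
        ((hGGD M hM x (lt_of_lt_of_le hM0 hx.1) (lt_of_le_of_lt hx.2 hq)).2.continuousAt)).continuousWithinAt
    have hder : ∀ x ∈ Ico (1 / M) q,
        HasDerivWithinAt (fun x => phi1 M q x - gg1 M x) 0 (Ici x) x := by
      intro x hx
      have hx0 := lt_of_lt_of_le hM0 hx.1
      have h := (hPHD M q hM hq x hx0).2.sub (hGGD M hM x hx0 (hx.2.trans hq)).2
      have hpsi : psiT M q x = rr M x := by
        unfold psiT
        rw [min_eq_left hx.2.le]
        exact (hPMN M hM).2 x hx.1 (hx.2.trans hq)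
      rw [hpsi, sub_self] at h
      exact h.hasDerivWithinAt
    have := constant_of_has_deriv_right_zero hcont hder b ⟨hb, hbq⟩
    have h0 : phi1 M q (1 / M) = 0 := by unfold phi1; simp
    simp only [h0] at this
    linarith
  intro b hb hbq
  refine ⟨e1 b hb hbq, ?_⟩
  have hcont : ContinuousOn (fun x => phi M q x - gg M x + gg1 M (1 / M) * x) (Icc (1 / M) q) := by
    intro x hx
    exact ((((hPHD M q hM hq x (lt_of_lt_of_le hM0 hx.1)).1.continuousAt).sub
      ((hGGD M hM x (lt_of_lt_of_le hM0 hx.1) (lt_of_le_of_lt hx.2 hq)).1.continuousAt)).add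
      (continuousAt_const.mul continuousAt_id)).continuousWithinAt
  have hder : ∀ x ∈ Ico (1 / M) q,
      HasDerivWithinAt (fun x => phi M q x - gg M x + gg1 M (1 / M) * x) 0 (Ici x) x := by
    intro x hx
    have hx0 := lt_of_lt_of_le hM0 hx.1
    have h := ((hPHD M q hM hq x hx0).1.sub (hGGD M hM x hx0 (hx.2.trans hq)).1).add
      ((hasDerivAt_id x).const_mul (gg1 M (1 / M)))
    rw [e1 x hx.1 hx.2.le] at h
    have h' := h.hasDerivWithinAt (s := Ici x)
    refine h'.congr_deriv ?_
    ring
  have := constant_of_has_deriv_right_zero hcont hder b ⟨hb, hbq⟩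
  have h0 : phi M q (1 / M) = 0 := by unfold phi; simp
  simp only [h0] at this
  linarith

theorem t_DGP (hGGD : S_GGD) (hRCC : S_RCC) (hDHF : S_DHF) : S_DGP := by
  intro N hN b hb hb2
  by_contra hneg
  push Not at hneg
  have hNr : (2 : ℝ) ≤ (N : ℝ) := by exact_mod_cast hN
  set M : ℝ := (N : ℝ) with hMdef
  set a : ℝ := 1 / M with ha
  have ha0 : 0 < a := by positivity
  set D : ℝ → ℝ := fun b => gg M b - gg M a - gg1 M a * (b - a) with hD
  have hDd : ∀ x, 0 < x → x < 1 → HasDerivAt D (gg1 M x - gg1 M a) x := by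
    intro x hx hx1
    have h := ((hGGD M hNr x hx hx1).1.sub_const (gg M a)).sub
      (((hasDerivAt_id x).sub_const a).const_mul (gg1 M a))
    refine h.congr_deriv ?_
    ring
  have hD1d : ∀ x, 0 < x → x < 1 → HasDerivAt (fun x => gg1 M x - gg1 M a) (rr M x / x ^ 2) x := by
    intro x hx hx1
    exact (hGGD M hNr x hx hx1).2.sub_const (gg1 M a)
  have hcontD : ContinuousOn D (Icc a (1 / 2)) := fun x hx =>
    (hDd x (lt_of_lt_of_le ha0 hx.1) (lt_of_le_of_lt hx.2 (by norm_num))).continuousAt.continuousWithinAt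
  obtain ⟨c, hc, hmin⟩ := isCompact_Icc.exists_isMinOn (s := Icc a (1 / 2 : ℝ)) ⟨b, hb, hb2⟩ hcontD
  have hDc : D c < 0 := lt_of_le_of_lt (hmin ⟨hb, hb2⟩) hneg
  have hca : a < c := by
    refine lt_of_le_of_ne hc.1 ?_
    intro h
    rw [← h] at hDc
    simp [hD] at hDc
  have hDhalf : 0 ≤ D (1 / 2) := hDHF N hN
  have hch : c < 1 / 2 := by
    refine lt_of_le_of_ne hc.2 ?_
    intro h
    rw [h] at hDc
    linarith
  have hc0 : 0 < c := ha0.trans hca
  have hc1 : c < 1 := by linarith
  have hloc : IsLocalMin D c := hmin.isLocalMin (Icc_mem_nhds hca hch)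
  have hd0 : gg1 M c - gg1 M a = 0 := hloc.hasDerivAt_eq_zero (hDd c hc0 hc1)
  obtain ⟨d, hd, hd'⟩ := exists_hasDerivAt_eq_zero (f := fun x => gg1 M x - gg1 M a)
    (f' := fun x => rr M x / x ^ 2) hca
    (fun x hx => (hD1d x (lt_of_lt_of_le ha0 hx.1) (lt_of_le_of_lt hx.2 hc1)).continuousAt.continuousWithinAt)
    (by simp [hd0]) (fun x hx => hD1d x (ha0.trans hx.1) (hx.2.trans hc1))
  have hdpos : 0 < d := ha0.trans hd.1
  have hrd : rr M d = 0 := by
    have h2 : (d : ℝ) ^ 2 ≠ 0 := by positivity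
    exact (div_eq_zero_iff.mp hd').resolve_right h2
  have hra : 0 < rr M a := by
    have hM0 : M ≠ 0 := by linarith
    have hM1 : M - 1 ≠ 0 := by linarith
    have : rr M a = M / (M - 1) := by
      unfold rr
      rw [ha]
      have h3 : (1 : ℝ) - 1 / M ≠ 0 := by
        have h4 : (1 : ℝ) - 1 / M = (M - 1) / M := by field_simp
        rw [h4]
        exact div_ne_zero hM1 hM0
      field_simp
      ring
    rw [this]
    apply div_pos <;> linarith
  have hrneg : ∀ x, d ≤ x → x < 1 → rr M x ≤ 0 := by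
    intro x hx hx1
    by_contra hpos
    push Not at hpos
    have hdx : d < x := by
      refine lt_of_le_of_ne hx ?_
      intro h
      rw [← h, hrd] at hpos
      exact lt_irrefl _ hpos
    have hconc := hRCC M hNr
    have hxa : 0 < x - a := by linarith [hd.1]
    have ha1 : a ∈ Ico (0 : ℝ) 1 := ⟨ha0.le, by linarith [hd.1, hd.2]⟩
    have hx1' : x ∈ Ico (0 : ℝ) 1 := ⟨by linarith, hx1⟩
    have hc1' : 0 ≤ (x - d) / (x - a) := div_nonneg (by linarith) hxa.le
    have hc2' : 0 ≤ (d - a) / (x - a) := div_nonneg (by linarith [hd.1]) hxa.le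
    have hc3' : (x - d) / (x - a) + (d - a) / (x - a) = 1 := by
      rw [← add_div, div_eq_one_iff_eq hxa.ne']
      ring
    have h := hconc.2 ha1 hx1' hc1' hc2' hc3'
    have harg : ((x - d) / (x - a)) • a + ((d - a) / (x - a)) • x = d := by
      simp only [smul_eq_mul]
      field_simp
      ring
    rw [harg, hrd] at h
    simp only [smul_eq_mul] at h
    have h1 : 0 < (x - d) / (x - a) * rr M a := mul_pos (div_pos (by linarith) hxa) hra
    have h2 : 0 ≤ (d - a) / (x - a) * rr M x :=
      mul_nonneg (div_nonneg (by linarith [hd.1]) hxa.le) hpos.le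
    linarith
  -- `D'` is antitone on `[c, 1/2]`
  have hanti1 : AntitoneOn (fun x => gg1 M x - gg1 M a) (Icc c (1 / 2)) := by
    apply antitoneOn_of_deriv_nonpos (convex_Icc _ _)
    · intro x hx
      exact (hD1d x (lt_of_lt_of_le hc0 hx.1) (lt_of_le_of_lt hx.2 (by norm_num))).continuousAt.continuousWithinAt
    · intro x hx
      rw [interior_Icc] at hx
      exact (hD1d x (hc0.trans hx.1) (hx.2.trans (by norm_num))).differentiableAt.differentiableWithinAt
    · intro x hx
      rw [interior_Icc] at hx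
      rw [(hD1d x (hc0.trans hx.1) (hx.2.trans (by norm_num))).deriv]
      apply div_nonpos_of_nonpos_of_nonneg
      · exact hrneg x (hd.2.le.trans hx.1.le) (hx.2.trans (by norm_num))
      · positivity
  have hanti : AntitoneOn D (Icc c (1 / 2)) := by
    apply antitoneOn_of_deriv_nonpos (convex_Icc _ _)
    · intro x hx
      exact (hDd x (lt_of_lt_of_le hc0 hx.1) (lt_of_le_of_lt hx.2 (by norm_num))).continuousAt.continuousWithinAt
    · intro x hx
      rw [interior_Icc] at hx
      exact (hDd x (hc0.trans hx.1) (hx.2.trans (by norm_num))).differentiableAt.differentiableWithinAt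
    · intro x hx
      rw [interior_Icc] at hx
      rw [(hDd x (hc0.trans hx.1) (hx.2.trans (by norm_num))).deriv]
      have := hanti1 (left_mem_Icc.mpr hch.le) ⟨hx.1.le, hx.2.le⟩ hx.1.le
      simp only at this
      linarith
  have := hanti (left_mem_Icc.mpr hch.le) (right_mem_Icc.mpr hch.le) hch.le
  linarith

end H99.FL
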