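import Pool.Agent.H5.FL.Stm2
import Pool.Agent.H99.FL.OBS

set_option autoImplicit false

open MeasureTheory ProbabilityTheory Set
open scoped NNReal ENNReal

universe u

namespace H99.FL

open H5.FL

section gencont

variable {N : ℕ}

lemma hasDerivAt_upd1 {f : (Fin N → ℝ) × (Fin N → ℝ) → ℝ} (hf : Differentiable ℝ f)
    (x τ : Fin N → ℝ) (j : Fin N) (s : ℝ) :
    HasDerivAt (fun s => f (Function.update x j s, τ))
      (fderiv ℝ f (Function.update x j s, τ) (Pi.single j 1, 0)) s := by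
  have h1 : HasDerivAt (fun s : ℝ => (Function.update x j s, τ)) ((Pi.single j 1, 0) :
      (Fin N → ℝ) × (Fin N → ℝ)) s := (hasDerivAt_update x j s).prodMk (hasDerivAt_const s τ)
  exact (hf _).hasFDerivAt.comp_hasDerivAt s h1

lemma hasDerivAt_upd2 {f : (Fin N → ℝ) × (Fin N → ℝ) → ℝ} (hf : Differentiable ℝ f)
    (x τ : Fin N → ℝ) (j : Fin N) (s : ℝ) :
    HasDerivAt (fun s => f (x, Function.update τ j s))
      (fderiv ℝ f (x, Function.update τ j s) (0, Pi.single j 1)) s := by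
  have h1 : HasDerivAt (fun s : ℝ => (x, Function.update τ j s)) ((0, Pi.single j 1) :
      (Fin N → ℝ) × (Fin N → ℝ)) s := (hasDerivAt_const s x).prodMk (hasDerivAt_update τ j s)
  exact (hf _).hasFDerivAt.comp_hasDerivAt s h1

lemma gen_eq {f : (Fin N → ℝ) × (Fin N → ℝ) → ℝ} (hf : ContDiff ℝ 2 f) (μ : ℝ)
    (x τ : Fin N → ℝ) (j : Fin N) (hit : Prop) [Decidable hit] :
    gen μ f x τ j hit =
      (1 / 2) * fderiv ℝ (fun y => fderiv ℝ f y (Pi.single j 1, 0)) (x, τ) (Pi.single j 1, 0)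
      + (if hit then μ else 0) * fderiv ℝ f (x, τ) (Pi.single j 1, 0)
      + fderiv ℝ f (x, τ) (0, Pi.single j 1) := by
  have hd : Differentiable ℝ f := hf.differentiable (by norm_num)
  have hf1 : ContDiff ℝ 1 (fun y => fderiv ℝ f y (Pi.single j 1, 0)) :=
    (hf.fderiv_right (m := 1) (by norm_num)).clm_apply contDiff_const
  have hd1 : Differentiable ℝ (fun y => fderiv ℝ f y (Pi.single j 1, 0)) :=
    hf1.differentiable (by norm_num)
  unfold gen
  have e1 : deriv (fun s => f (Function.update x j s, τ)) =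
      fun s => fderiv ℝ f (Function.update x j s, τ) (Pi.single j 1, 0) := by
    funext s
    exact (hasDerivAt_upd1 hd x τ j s).deriv
  have e2 : iteratedDeriv 2 (fun s => f (Function.update x j s, τ)) (x j)
      = fderiv ℝ (fun y => fderiv ℝ f y (Pi.single j 1, 0)) (x, τ) (Pi.single j 1, 0) := by
    rw [iteratedDeriv_succ, iteratedDeriv_one, e1]
    have := (hasDerivAt_upd1 hd1 x τ j (x j)).deriv
    rw [Function.update_eq_self] at this
    exact this
  have e3 : deriv (fun s => f (x, Function.update τ j s)) (τ j)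
      = fderiv ℝ f (x, τ) (0, Pi.single j 1) := by
    have := (hasDerivAt_upd2 hd x τ j (τ j)).deriv
    rw [Function.update_eq_self] at this
    exact this
  rw [e2, e3, e1]
  simp only [Function.update_eq_self]

lemma gen_cont {f : (Fin N → ℝ) × (Fin N → ℝ) → ℝ} (hf : ContDiff ℝ 2 f) (μ : ℝ)
    (j : Fin N) (hit : Prop) [Decidable hit] :
    Continuous (fun y : (Fin N → ℝ) × (Fin N → ℝ) => gen μ f y.1 y.2 j hit) := by
  have hf1 : ContDiff ℝ 1 (fun y => fderiv ℝ f y (Pi.single j 1, 0)) :=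
    (hf.fderiv_right (m := 1) (by norm_num)).clm_apply contDiff_const
  have hf1' : ContDiff ℝ 1 (fun y => fderiv ℝ f y (0, Pi.single j 1)) :=
    (hf.fderiv_right (m := 1) (by norm_num)).clm_apply contDiff_const
  have hf2 : ContDiff ℝ 0 (fun y => fderiv ℝ (fun y => fderiv ℝ f y (Pi.single j 1, 0)) y
      (Pi.single j 1, 0)) := (hf1.fderiv_right (m := 0) (by norm_num)).clm_apply contDiff_const
  have h : (fun y : (Fin N → ℝ) × (Fin N → ℝ) => gen μ f y.1 y.2 j hit) = fun y =>
      (1 / 2) * fderiv ℝ (fun y => fderiv ℝ f y (Pi.single j 1, 0)) y (Pi.single j 1, 0)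
      + (if hit then μ else 0) * fderiv ℝ f y (Pi.single j 1, 0)
      + fderiv ℝ f y (0, Pi.single j 1) := by
    funext y
    exact gen_eq hf μ y.1 y.2 j hit
  rw [h]
  exact ((continuous_const.mul hf2.continuous).add (continuous_const.mul hf1.continuous)).add
    hf1'.continuous

lemma gen_bound {f : (Fin N → ℝ) × (Fin N → ℝ) → ℝ} (hf : IsTest f) (μ : ℝ) :
    ∃ K : ℝ, 0 ≤ K ∧ ∀ (x τ : Fin N → ℝ) (j : Fin N) (hit : Prop) [Decidable hit],
      |gen μ f x τ j hit| ≤ K := by
  obtain ⟨C, hC⟩ := hf.bdd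
  have hC0 : 0 ≤ C := (abs_nonneg _).trans (hC 0 0).1
  refine ⟨(1 / 2) * C + |μ| * C + C, by positivity, fun x τ j hit _ => ?_⟩
  obtain ⟨-, h2⟩ := hC x τ
  obtain ⟨h3, h4, h5⟩ := h2 j
  unfold gen
  refine (abs_add_le _ _).trans (add_le_add ((abs_add_le _ _).trans (add_le_add ?_ ?_)) h5)
  · rw [abs_mul, abs_of_pos (by norm_num : (0 : ℝ) < 1 / 2)]
    exact mul_le_mul_of_nonneg_left h4 (by norm_num)
  · rw [abs_mul]
    apply mul_le_mul _ h3 (abs_nonneg _) (abs_nonneg _)
    split_ifs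
    · exact le_refl _
    · rw [abs_zero]; exact abs_nonneg _

end gencont

end H99.FL
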