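import Pool.Agent.H99.FL.MOM

set_option autoImplicit false

open MeasureTheory ProbabilityTheory Set Filter Topology
open scoped NNReal ENNReal

universe u

namespace H99.FL

open H5.FL

section alg

variable {N : ℕ}

/-- the unit vectors -/
def ee (j : Fin N) : (Fin N → ℝ) × (Fin N → ℝ) := (Pi.single j 1, 0)
def ee' (j : Fin N) : (Fin N → ℝ) × (Fin N → ℝ) := (0, Pi.single j 1)

lemma norm_ee (j : Fin N) : ‖(ee j : (Fin N → ℝ) × (Fin N → ℝ))‖ ≤ 1 := by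
  unfold ee
  rw [Prod.norm_def]
  apply max_le
  · rw [pi_norm_le_iff_of_nonneg zero_le_one]
    intro i
    by_cases h : i = j
    · subst h; simp
    · simp [Pi.single_eq_of_ne h]
  · simp

lemma vec1 (m : Fin N → ℝ) : ((m, 0) : (Fin N → ℝ) × (Fin N → ℝ)) = ∑ j, m j • ee j := by
  refine Prod.ext ?_ ?_
  · rw [Prod.fst_sum]
    funext i
    simp [ee, Finset.sum_apply, Pi.single_apply]
  · rw [Prod.snd_sum]
    simp [ee]

lemma vec2 (c : Fin N → ℝ) : ((0, c) : (Fin N → ℝ) × (Fin N → ℝ)) = ∑ j, c j • ee' j := by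
  refine Prod.ext ?_ ?_
  · rw [Prod.fst_sum]
    simp [ee']
  · rw [Prod.snd_sum]
    funext i
    simp [ee', Finset.sum_apply, Pi.single_apply]

lemma lin1 (D : (Fin N → ℝ) × (Fin N → ℝ) →L[ℝ] ℝ) (m : Fin N → ℝ) :
    D (m, 0) = ∑ j, m j * D (ee j) := by
  rw [vec1, map_sum]
  simp

lemma lin2 (D : (Fin N → ℝ) × (Fin N → ℝ) →L[ℝ] ℝ) (x c : Fin N → ℝ) :
    D (x, c) = ∑ j, x j * D (ee j) + ∑ j, c j * D (ee' j) := by
  have h : ((x, c) : (Fin N → ℝ) × (Fin N → ℝ)) = (x, 0) + (0, c) := by simp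
  rw [h, map_add, lin1, vec2, map_sum]
  simp

lemma bil1 (B : (Fin N → ℝ) × (Fin N → ℝ) →L[ℝ] (Fin N → ℝ) × (Fin N → ℝ) →L[ℝ] ℝ)
    (m : Fin N → ℝ) : B (m, 0) (m, 0) = ∑ i, ∑ j, B (ee i) (ee j) * (m i * m j) := by
  have h1 : B (m, 0) = ∑ i, m i • B (ee i) := by
    rw [vec1, map_sum]
    simp
  rw [h1, ContinuousLinearMap.sum_apply]
  refine Finset.sum_congr rfl fun i _ => ?_
  rw [ContinuousLinearMap.smul_apply, lin1, smul_eq_mul, Finset.mul_sum]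
  refine Finset.sum_congr rfl fun j _ => ?_
  ring

/-- the algebraic identity -/
lemma ito_alg (D : (Fin N → ℝ) × (Fin N → ℝ) →L[ℝ] ℝ)
    (B : (Fin N → ℝ) × (Fin N → ℝ) →L[ℝ] (Fin N → ℝ) × (Fin N → ℝ) →L[ℝ] ℝ)
    (m x c : Fin N → ℝ) (g : Fin N → ℝ) (a b : ℝ)
    (hg : ∀ j, g j * c j = (1 / 2) * (B (ee j) (ee j) * c j) + x j * D (ee j)
      + c j * D (ee' j)) :
    (a - b - ∑ j, g j * c j) - ∑ j, D (ee j) * m j
      - (1 / 2) * (∑ i, ∑ j, B (ee i) (ee j) * (m i * m j) - ∑ j, B (ee j) (ee j) * c j)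
    = (a - b - D ((m, 0) + (x, c)) - (1 / 2) * B ((m, 0) + (x, c)) ((m, 0) + (x, c)))
      + (1 / 2) * (B (m, 0) (x, c) + B (x, c) (m, 0) + B (x, c) (x, c)) := by
  rw [map_add D, lin1, lin2, map_add B, ContinuousLinearMap.add_apply,
    map_add (B (m, 0)), map_add (B (x, c)), bil1]
  have h1 : ∑ j, g j * c j = (1 / 2) * ∑ j, B (ee j) (ee j) * c j + ∑ j, x j * D (ee j)
      + ∑ j, c j * D (ee' j) := by
    rw [Finset.mul_sum, ← Finset.sum_add_distrib, ← Finset.sum_add_distrib]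
    exact Finset.sum_congr rfl fun j _ => hg j
  have h2 : ∑ j, D (ee j) * m j = ∑ j, m j * D (ee j) :=
    Finset.sum_congr rfl fun j _ => mul_comm _ _
  rw [h1, h2]
  ring

end alg

/-- the elementary estimate of the remainder -/
lemma rem_est {F0 L1 L2 ε1 η rem nd : ℝ} (hF0 : 0 ≤ F0) (hL1 : 0 ≤ L1) (hL2 : 0 ≤ L2)
    (hε1 : 0 ≤ ε1) (hη : 0 < η) (hη1 : η ≤ 1) (hnd : 0 ≤ nd)
    (h1 : nd ≤ η → |rem| ≤ ε1 * nd ^ 2)
    (h2 : |rem| ≤ 2 * F0 + L1 * nd + (1 / 2) * L2 * nd ^ 2) :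
    |rem| ≤ ε1 * nd ^ 2 + (2 * F0 + L1 + L2) * (nd ^ 4 / η ^ 4) := by
  have hη4 : 0 < η ^ 4 := by positivity
  by_cases h : nd ≤ η
  · have := h1 h
    have h3 : 0 ≤ (2 * F0 + L1 + L2) * (nd ^ 4 / η ^ 4) := by positivity
    linarith
  · push Not at h
    obtain ⟨v, hv⟩ : ∃ v, v = nd / η := ⟨_, rfl⟩
    have hv1 : 1 ≤ v := by rw [hv, one_le_div hη]; exact h.le
    have hndv : nd = v * η := by rw [hv]; field_simp
    have h4 : nd ^ 4 / η ^ 4 = v ^ 4 := by rw [hv, div_pow]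
    have h5 : (1 : ℝ) ≤ v ^ 4 := one_le_pow₀ hv1
    have h6 : nd ≤ v ^ 4 := by
      have : nd ≤ v := by rw [hndv]; nlinarith
      refine this.trans ?_
      calc v = v ^ 1 := (pow_one v).symm
        _ ≤ v ^ 4 := pow_le_pow_right₀ hv1 (by norm_num)
    have h7 : nd ^ 2 ≤ v ^ 4 := by
      have h8 : nd ≤ v := by rw [hndv]; nlinarith
      calc nd ^ 2 ≤ v ^ 2 := pow_le_pow_left₀ hnd h8 2
        _ ≤ v ^ 4 := pow_le_pow_right₀ hv1 (by norm_num)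
    rw [h4]
    have h9 : 0 ≤ ε1 * nd ^ 2 := by positivity
    have h10 : 2 * F0 ≤ 2 * F0 * v ^ 4 := by nlinarith
    have h11 : L1 * nd ≤ L1 * v ^ 4 := mul_le_mul_of_nonneg_left h6 hL1
    have h12 : (1 / 2) * L2 * nd ^ 2 ≤ L2 * v ^ 4 := by nlinarith [mul_le_mul_of_nonneg_left h7 hL2]
    linarith

/-- the elementary estimate of the cross terms, `nd ≤ κ + nd²/κ` and `nd² ≤ (τ + nd⁴/τ)/2` -/
lemma tot_est {ε1 κ τ b L2 L η nd C4 : ℝ} (hκ : 0 < κ) (hτ : 0 < τ) (hb : 0 ≤ b) (hL2 : 0 ≤ L2)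
    (hL : 0 ≤ L) (hη : 0 < η) (hε1 : 0 ≤ ε1) (hnd : 0 ≤ nd) :
    (1 / 2) * (L2 * (2 * b * τ * nd + 3 * b ^ 2 * τ ^ 2)) + (ε1 * nd ^ 2 + L * (nd ^ 4 / η ^ 4))
    ≤ (L2 * b * κ * τ + (3 / 2) * L2 * b ^ 2 * τ ^ 2 + (L2 * b * τ / κ + ε1) * (τ / 2))
      + ((L2 * b * τ / κ + ε1) / (2 * τ) + L / η ^ 4) * nd ^ 4 := by
  have h1 : nd ≤ κ + nd ^ 2 / κ := by
    rw [← sub_nonneg]
    have : κ + nd ^ 2 / κ - nd = ((nd - κ / 2) ^ 2 + (3 / 4) * κ ^ 2) / κ := by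
      field_simp
      ring
    rw [this]
    positivity
  have h2 : nd ^ 2 ≤ (τ + nd ^ 4 / τ) / 2 := by
    rw [← sub_nonneg]
    have : (τ + nd ^ 4 / τ) / 2 - nd ^ 2 = (nd ^ 2 - τ) ^ 2 / (2 * τ) := by
      field_simp
      ring
    rw [this]
    positivity
  have hc : 0 ≤ L2 * b * τ := by positivity
  have h3 : L2 * b * τ * nd ≤ L2 * b * τ * (κ + nd ^ 2 / κ) := mul_le_mul_of_nonneg_left h1 hc
  have hcc : 0 ≤ L2 * b * τ / κ + ε1 := by positivity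
  have h4 := mul_le_mul_of_nonneg_left h2 hcc
  have e1 : (L2 * b * τ / κ + ε1) * ((τ + nd ^ 4 / τ) / 2)
      = (L2 * b * τ / κ + ε1) * (τ / 2) + (L2 * b * τ / κ + ε1) / (2 * τ) * nd ^ 4 := by
    field_simp
  rw [e1] at h4
  have e2 : L2 * b * τ * (κ + nd ^ 2 / κ) = L2 * b * κ * τ + L2 * b * τ / κ * nd ^ 2 := by
    field_simp
  rw [e2] at h3
  have e3 : L * (nd ^ 4 / η ^ 4) = L / η ^ 4 * nd ^ 4 := by ring
  rw [e3]
  nlinarith

end H99.FL
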