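import Pool.Agent.H5.FL.Stm4
import Pool.Agent.H78.FL.CLK
import Pool.Agent.H99.FL.PM1

set_option autoImplicit false

open MeasureTheory ProbabilityTheory Set Filter Topology
open scoped NNReal ENNReal

universe u

namespace H99.FL

open H5.FL

/-- the clocks are continuous -/
lemma clock_cont {N : ℕ} {Ω : Type u} [mΩ : MeasurableSpace Ω] (J : ℝ≥0 → Ω → Fin N)
    (hJ : Measurable fun p : ℝ≥0 × Ω => J p.1 p.2) (ω : Ω) :
    Continuous fun t => clock J t ω := by
  refine continuous_pi (fun j => ?_)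
  have hJω : Measurable fun s : ℝ => J s.toNNReal ω :=
    hJ.comp (measurable_real_toNNReal.prodMk measurable_const)
  have hF : Measurable fun s : ℝ => if J s.toNNReal ω = j then (1 : ℝ) else 0 :=
    Measurable.ite (hJω (measurableSet_singleton j)) measurable_const measurable_const
  have hint : ∀ a b : ℝ, IntervalIntegrable
      (fun s : ℝ => if J s.toNNReal ω = j then (1 : ℝ) else 0) volume a b := by
    intro a b
    refine (intervalIntegrable_const (c := (1 : ℝ))).mono_fun hF.aestronglyMeasurable ?_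
    refine Filter.Eventually.of_forall (fun s => ?_)
    simp only
    split_ifs <;> simp
  exact (intervalIntegral.continuous_primitive hint 0).comp NNReal.continuous_coe

lemma ind_meas {N : ℕ} {Ω : Type u} [mΩ : MeasurableSpace Ω] (J : ℝ≥0 → Ω → Fin N)
    (hJ : Measurable fun p : ℝ≥0 × Ω => J p.1 p.2) (j : Fin N) :
    Measurable (Function.uncurry fun (r : ℝ≥0) ω => if J r ω = j then (1 : ℝ) else 0) :=
  Measurable.ite (hJ (measurableSet_singleton j)) measurable_const measurable_const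

lemma ind_le {N : ℕ} {Ω : Type u} (J : ℝ≥0 → Ω → Fin N) (j : Fin N) (r : ℝ≥0) (ω : Ω) :
    |(if J r ω = j then (1 : ℝ) else 0)| ≤ 1 := by
  split_ifs <;> simp

lemma path_meas_clock {N : ℕ} {Ω : Type u} [mΩ : MeasurableSpace Ω] (J : ℝ≥0 → Ω → Fin N)
    (hJ : Measurable fun p : ℝ≥0 × Ω => J p.1 p.2) (t : ℝ≥0) (j : Fin N) :
    Measurable fun ω => clock J t ω j := by
  have h : Measurable fun p : Set.Iic t × Ω => J p.1 p.2 :=
    hJ.comp ((measurable_subtype_coe.comp measurable_fst).prodMk measurable_snd)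
  exact (measurable_pi_apply j).comp (H78.FL.clock_measurable mΩ J t h)

lemma clock_diff {N : ℕ} {Ω : Type u} [mΩ : MeasurableSpace Ω] (J : ℝ≥0 → Ω → Fin N)
    (hJ : Measurable fun p : ℝ≥0 × Ω => J p.1 p.2) (ω : Ω) (s t : ℝ≥0) (j : Fin N) :
    clock J t ω j - clock J s ω j
      = ∫ r in (s : ℝ)..t, (if J r.toNNReal ω = j then (1 : ℝ) else 0) := by
  unfold clock
  exact intervalIntegral.integral_interval_sub_left
    (path_intervalIntegrable (F := fun (r : ℝ≥0) ω => if J r ω = j then (1 : ℝ) else 0)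
      (ind_meas J hJ j) (ind_le J j) 0 t ω)
    (path_intervalIntegrable (F := fun (r : ℝ≥0) ω => if J r ω = j then (1 : ℝ) else 0)
      (ind_meas J hJ j) (ind_le J j) 0 s ω)

lemma sum_clock {N : ℕ} {Ω : Type u} [mΩ : MeasurableSpace Ω] (J : ℝ≥0 → Ω → Fin N)
    (hJ : Measurable fun p : ℝ≥0 × Ω => J p.1 p.2) (ω : Ω) (s t : ℝ≥0) (g : Fin N → ℝ) :
    ∑ j, g j * (clock J t ω j - clock J s ω j) = ∫ r in (s : ℝ)..t, g (J r.toNNReal ω) := by
  have h1 : ∀ j, g j * (clock J t ω j - clock J s ω j)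
      = ∫ r in (s : ℝ)..t, g j * (if J r.toNNReal ω = j then (1 : ℝ) else 0) := by
    intro j
    rw [clock_diff J hJ, intervalIntegral.integral_const_mul]
  simp only [h1]
  rw [← intervalIntegral.integral_finsetSum]
  · apply intervalIntegral.integral_congr
    intro r _
    simp
  · intro j _
    exact (path_intervalIntegrable (F := fun (r : ℝ≥0) ω => if J r ω = j then (1 : ℝ) else 0)
      (ind_meas J hJ j) (ind_le J j) s t ω).const_mul _

/-- joint measurability of the generator along a path -/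
lemma gen_meas' {N : ℕ} (μ : ℝ) {Ω : Type u} [mΩ : MeasurableSpace Ω]
    {X : ℝ≥0 → Ω → Fin N → ℝ} {J : ℝ≥0 → Ω → Fin N} {js : Ω → Fin N}
    (hYu : Measurable (fun p : ℝ≥0 × Ω => (X p.1 p.2, clock J p.1 p.2)))
    (hJ : Measurable fun p : ℝ≥0 × Ω => J p.1 p.2) (hjs : Measurable js)
    {f : (Fin N → ℝ) × (Fin N → ℝ) → ℝ} (hf : ContDiff ℝ 2 f) :
    Measurable (Function.uncurry fun (r : ℝ≥0) ω => gen μ f (X r ω) (clock J r ω) (J r ω)
      (J r ω = js ω)) := by
  have h1 : ∀ j : Fin N, Measurable (fun z : ((Fin N → ℝ) × (Fin N → ℝ)) × Fin N =>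
      gen μ f z.1.1 z.1.2 j (j = z.2)) := by
    intro j
    exact measurable_from_prod_countable_left (fun i => (gen_cont hf μ j (j = i)).measurable)
  exact meas_pair (fun (z : ((Fin N → ℝ) × (Fin N → ℝ)) × Fin N) j =>
      gen μ f z.1.1 z.1.2 j (j = z.2)) h1 (hYu.prodMk (hjs.comp measurable_snd)) hJ

/-- uniform continuity of the generator on balls -/
lemma gen_unif {N : ℕ} (μ : ℝ) {f : (Fin N → ℝ) × (Fin N → ℝ) → ℝ} (hf : ContDiff ℝ 2 f)
    (R ε : ℝ) (hε : 0 < ε) : ∃ η : ℝ, 0 < η ∧ η ≤ 1 ∧ ∀ z w : (Fin N → ℝ) × (Fin N → ℝ),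
      ‖z‖ ≤ R → ‖w - z‖ < η → ∀ j i : Fin N,
      |gen μ f z.1 z.2 j (j = i) - gen μ f w.1 w.2 j (j = i)| ≤ ε := by
  let G : (Fin N → ℝ) × (Fin N → ℝ) → (Fin N × Fin N → ℝ) := fun z p =>
    gen μ f z.1 z.2 p.1 (p.1 = p.2)
  have hG : Continuous G := continuous_pi fun p => gen_cont hf μ p.1 (p.1 = p.2)
  have hK : IsCompact (Metric.closedBall (0 : (Fin N → ℝ) × (Fin N → ℝ)) (R + 1)) :=
    isCompact_closedBall _ _
  have hU := hK.uniformContinuousOn_of_continuous hG.continuousOn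
  obtain ⟨η, hη, h⟩ := Metric.uniformContinuousOn_iff.mp hU ε hε
  refine ⟨min η 1, lt_min hη one_pos, min_le_right _ _, fun z w hz hw j i => ?_⟩
  have hz' : z ∈ Metric.closedBall (0 : (Fin N → ℝ) × (Fin N → ℝ)) (R + 1) := by
    rw [mem_closedBall_zero_iff]; linarith
  have hw' : w ∈ Metric.closedBall (0 : (Fin N → ℝ) × (Fin N → ℝ)) (R + 1) := by
    rw [mem_closedBall_zero_iff]
    have h1 : ‖w‖ ≤ ‖w - z‖ + ‖z‖ := by
      have := norm_add_le (w - z) z
      simpa using this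
    have h2 := hw.trans_le (min_le_right η 1)
    linarith
  have hd : dist z w < η := by
    rw [dist_comm, dist_eq_norm]
    exact hw.trans_le (min_le_left _ _)
  have h3 := (h z hz' w hw' hd).le
  have h4 := (dist_le_pi_dist (G z) (G w) (j, i)).trans h3
  rw [Real.dist_eq] at h4
  exact h4

theorem is3 {N : ℕ} {μ : ℝ} {Ω : Type u} [mΩ : MeasurableSpace Ω] {P : Measure Ω}
    [IsProbabilityMeasure P] (π : BPolicy N μ Ω P) (f : (Fin N → ℝ) × (Fin N → ℝ) → ℝ)
    (hf : IsTest f) (C R ε : ℝ) (hε : 0 < ε)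
    (hC : ∀ s r : ℝ≥0, s ≤ r → (r : ℝ) ≤ s + 1 →
      Integrable (fun ω => ‖(π.X r ω, clock π.J r ω) - (π.X s ω, clock π.J s ω)‖ ^ 4) P ∧
      ∫ ω, ‖(π.X r ω, clock π.J r ω) - (π.X s ω, clock π.J s ω)‖ ^ 4 ∂P
        ≤ C * ((r : ℝ) - s) ^ 2) :
    ∃ δ : ℝ, 0 < δ ∧ δ ≤ 1 ∧ ∀ s t : ℝ≥0, s ≤ t → (t : ℝ) ≤ s + δ →
      ∀ A, MeasurableSet A → (∀ ω ∈ A, ‖(π.X s ω, clock π.J s ω)‖ ≤ R) →
      |∫ ω in A, (∑ j, gen μ f (π.X s ω) (clock π.J s ω) j (j = π.jstar ω)
            * (clock π.J t ω j - clock π.J s ω j)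
          - ∫ r in (s : ℝ)..t, gen μ f (π.X r.toNNReal ω) (clock π.J r.toNNReal ω)
            (π.J r.toNNReal ω) (π.J r.toNNReal ω = π.jstar ω)) ∂P| ≤ ε * ((t : ℝ) - s) := by
  classical
  -- measurability
  have hJ := H78.FL.J_joint π.obs π.J π.J_prog
  have hXm : ∀ r, Measurable (π.X r) := fun r => (π.X_adapted r).mono (π.obs.le r) le_rfl
  have hcl := clock_cont π.J hJ
  have hXc : ∀ ω, Continuous fun t => π.X t ω := by
    intro ω
    have h1 : (fun t => π.X t ω) = fun t => fun j => π.M t ω j +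
        μ * (if π.jstar ω = j then clock π.J t ω j else 0) := by
      funext t j
      exact π.X_eq t ω j
    rw [h1]
    refine continuous_pi fun j => ?_
    have h2 : Continuous fun t => π.M t ω j := (continuous_apply j).comp (π.M_cont ω)
    have h3 : Continuous fun t => clock π.J t ω j := (continuous_apply j).comp (hcl ω)
    split_ifs
    · exact h2.add (continuous_const.mul h3)
    · exact h2.add continuous_const
  have hCm : ∀ r, Measurable (clock π.J r) := by
    intro r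
    refine measurable_pi_lambda _ fun j => ?_
    have h := path_meas_clock π.J hJ r j
    exact h
  have hXu : Measurable (Function.uncurry π.X) :=
    measurable_uncurry_of_continuous_of_measurable hXc hXm
  have hCu : Measurable (Function.uncurry (clock π.J)) :=
    measurable_uncurry_of_continuous_of_measurable hcl hCm
  have hYu : Measurable (fun p : ℝ≥0 × Ω => (π.X p.1 p.2, clock π.J p.1 p.2)) := hXu.prodMk hCu
  have hjs : Measurable π.jstar := (π.jstar_full).mono (π.full.le 0) le_rfl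
  obtain ⟨K, hK0, hK⟩ := gen_bound hf μ
  obtain ⟨η, hη, hη1, hunif⟩ := gen_unif μ hf.smooth R (ε / 2) (by positivity)
  -- the choice of `δ`
  have hη4 : 0 < η ^ 4 := by positivity
  obtain ⟨δ, hδ⟩ : ∃ δ, δ = min 1 (ε * η ^ 4 / (4 * (K + 1) * (|C| + 1))) := ⟨_, rfl⟩
  have hδ0 : 0 < δ := by rw [hδ]; positivity
  have hδ1 : δ ≤ 1 := by rw [hδ]; exact min_le_left _ _
  have hδ2 : 2 * K * (|C| * δ ^ 2 / η ^ 4) ≤ ε / 2 := by
    have h1 : δ ≤ ε * η ^ 4 / (4 * (K + 1) * (|C| + 1)) := by rw [hδ]; exact min_le_right _ _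
    have h2 : δ * (4 * (K + 1) * (|C| + 1)) ≤ ε * η ^ 4 := by
      rwa [le_div_iff₀ (by positivity)] at h1
    have h3 : δ ^ 2 ≤ δ := by nlinarith
    rw [← mul_div_assoc, div_le_iff₀ hη4]
    have h4 : K * |C| ≤ (K + 1) * (|C| + 1) := by nlinarith [abs_nonneg C]
    have h5 : 0 ≤ K * |C| := mul_nonneg hK0 (abs_nonneg C)
    calc 2 * K * (|C| * δ ^ 2) = 2 * (K * |C|) * δ ^ 2 := by ring
      _ ≤ 2 * (K * |C|) * δ := by gcongr
      _ ≤ 2 * ((K + 1) * (|C| + 1)) * δ := by gcongr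
      _ ≤ ε / 2 * η ^ 4 := by nlinarith
  refine ⟨δ, hδ0, hδ1, fun s t hst hts A hA hAR => ?_⟩
  have hst' : (s : ℝ) ≤ t := by exact_mod_cast hst
  -- the auxiliary field
  obtain ⟨q, hq⟩ : ∃ q : ℝ≥0 → Ω → ℝ, q = fun r ω => min 1
    ((‖(π.X r ω, clock π.J r ω) - (π.X s ω, clock π.J s ω)‖ ^ 4) / η ^ 4) := ⟨_, rfl⟩
  have hYs : Measurable (fun ω => (π.X s ω, clock π.J s ω)) := (hXm s).prodMk (hCm s)
  have hqm : Measurable (Function.uncurry q) := by
    rw [hq]
    have h1 : Measurable (fun p : ℝ≥0 × Ω => (π.X p.1 p.2, clock π.J p.1 p.2)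
        - (π.X s p.2, clock π.J s p.2)) := hYu.sub (hYs.comp measurable_snd)
    exact measurable_const.min ((h1.norm.pow_const 4).div_const _)
  have hq0 : ∀ r ω, 0 ≤ q r ω := by
    intro r ω
    rw [hq]
    exact le_min zero_le_one (by positivity)
  have hq1 : ∀ r ω, |q r ω| ≤ 1 := by
    intro r ω
    rw [abs_of_nonneg (hq0 r ω), hq]
    exact min_le_left _ _
  -- the pointwise estimate
  have hpt : ∀ ω ∈ A, ∀ r : ℝ≥0,
      |gen μ f (π.X s ω) (clock π.J s ω) (π.J r ω) (π.J r ω = π.jstar ω)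
        - gen μ f (π.X r ω) (clock π.J r ω) (π.J r ω) (π.J r ω = π.jstar ω)|
        ≤ ε / 2 + 2 * K * q r ω := by
    intro ω hω r
    by_cases hd : ‖(π.X r ω, clock π.J r ω) - (π.X s ω, clock π.J s ω)‖ < η
    · have h1 := hunif (π.X s ω, clock π.J s ω) (π.X r ω, clock π.J r ω) (hAR ω hω) hd
        (π.J r ω) (π.jstar ω)
      have h2 : 0 ≤ 2 * K * q r ω := mul_nonneg (by positivity) (hq0 r ω)
      simp only at h1
      linarith
    · push Not at hd
      have h1 : q r ω = 1 := by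
        rw [hq]
        apply min_eq_left
        rw [one_le_div hη4]
        exact pow_le_pow_left₀ hη.le hd 4
      rw [h1]
      have h2 := hK (π.X s ω) (clock π.J s ω) (π.J r ω) (π.J r ω = π.jstar ω)
      have h3 := hK (π.X r ω) (clock π.J r ω) (π.J r ω) (π.J r ω = π.jstar ω)
      have h4 := (abs_sub _ _).trans (add_le_add h2 h3)
      linarith
  -- path integrals
  have hgm := gen_meas' μ (js := π.jstar) hYu hJ hjs hf.smooth
  have hgb : ∀ (r : ℝ≥0) (ω : Ω), |gen μ f (π.X r ω) (clock π.J r ω) (π.J r ω)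
      (π.J r ω = π.jstar ω)| ≤ K := fun r ω => hK _ _ _ _
  have hg0m : Measurable (Function.uncurry fun (r : ℝ≥0) ω => gen μ f (π.X s ω) (clock π.J s ω)
      (π.J r ω) (π.J r ω = π.jstar ω)) := by
    have h1 : ∀ j : Fin N, Measurable (fun z : ((Fin N → ℝ) × (Fin N → ℝ)) × Fin N =>
        gen μ f z.1.1 z.1.2 j (j = z.2)) := by
      intro j
      exact measurable_from_prod_countable_left
        (fun i => (gen_cont hf.smooth μ j (j = i)).measurable)
    exact meas_pair (fun (z : ((Fin N → ℝ) × (Fin N → ℝ)) × Fin N) j =>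
        gen μ f z.1.1 z.1.2 j (j = z.2)) h1
        ((hYs.comp measurable_snd).prodMk (hjs.comp measurable_snd)) hJ
  have hg0b : ∀ (r : ℝ≥0) (ω : Ω), |gen μ f (π.X s ω) (clock π.J s ω) (π.J r ω)
      (π.J r ω = π.jstar ω)| ≤ K := fun r ω => hK _ _ _ _
  have hpath : ∀ ω ∈ A, |∑ j, gen μ f (π.X s ω) (clock π.J s ω) j (j = π.jstar ω)
            * (clock π.J t ω j - clock π.J s ω j)
          - ∫ r in (s : ℝ)..t, gen μ f (π.X r.toNNReal ω) (clock π.J r.toNNReal ω)
            (π.J r.toNNReal ω) (π.J r.toNNReal ω = π.jstar ω)|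
      ≤ ∫ r in (s : ℝ)..t, (ε / 2 + 2 * K * q r.toNNReal ω) := by
    intro ω hω
    rw [sum_clock π.J hJ ω s t (fun j => gen μ f (π.X s ω) (clock π.J s ω) j (j = π.jstar ω)),
      ← intervalIntegral.integral_sub (path_intervalIntegrable hg0m hg0b s t ω)
        (path_intervalIntegrable hgm hgb s t ω)]
    refine (intervalIntegral.abs_integral_le_integral_abs hst').trans ?_
    refine intervalIntegral.integral_mono_on hst' ?_ ?_ (fun r _ => hpt ω hω r.toNNReal)
    · exact ((path_intervalIntegrable hg0m hg0b s t ω).sub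
        (path_intervalIntegrable hgm hgb s t ω)).abs
    · exact intervalIntegrable_const.add ((path_intervalIntegrable hqm hq1 s t ω).const_mul _)
  have hqe : ∀ r : ℝ≥0, s ≤ r → r ≤ t → ∫ ω in A, (ε / 2 + 2 * K * q r ω) ∂P ≤ ε := by
    intro r hsr hrt
    have hrt' : (r : ℝ) ≤ t := by exact_mod_cast hrt
    have hsr' : (s : ℝ) ≤ r := by exact_mod_cast hsr
    have hrs1 : (r : ℝ) ≤ s + 1 := by linarith
    obtain ⟨hi, hb⟩ := hC s r hsr hrs1
    have hqrm : Measurable (q r) := hqm.comp (measurable_const.prodMk measurable_id)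
    have hqi : Integrable (q r) P := Integrable.of_bound hqrm.aestronglyMeasurable 1
      (Filter.Eventually.of_forall fun ω => by rw [Real.norm_eq_abs]; exact hq1 r ω)
    have h1 : ∫ ω in A, (ε / 2 + 2 * K * q r ω) ∂P ≤ ∫ ω, (ε / 2 + 2 * K * q r ω) ∂P := by
      apply setIntegral_le_integral ((integrable_const _).add (hqi.const_mul _))
      exact Filter.Eventually.of_forall fun ω => by
        have h9 := mul_nonneg (mul_nonneg zero_le_two hK0) (hq0 r ω)
        show (0 : ℝ) ≤ ε / 2 + 2 * K * q r ω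
        linarith
    have h2 : ∫ ω, (ε / 2 + 2 * K * q r ω) ∂P = ε / 2 + 2 * K * ∫ ω, q r ω ∂P := by
      rw [integral_add (integrable_const _) (hqi.const_mul _), integral_const_mul]
      simp
    have h3 : ∫ ω, q r ω ∂P ≤ |C| * δ ^ 2 / η ^ 4 := by
      calc ∫ ω, q r ω ∂P ≤ ∫ ω, (‖(π.X r ω, clock π.J r ω)
            - (π.X s ω, clock π.J s ω)‖ ^ 4) / η ^ 4 ∂P := by
            refine integral_mono hqi (hi.div_const _) (fun ω => ?_)
            rw [hq]
            exact min_le_right _ _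
        _ = (∫ ω, (‖(π.X r ω, clock π.J r ω)
            - (π.X s ω, clock π.J s ω)‖ ^ 4) ∂P) / η ^ 4 := integral_div _ _
        _ ≤ |C| * δ ^ 2 / η ^ 4 := by
            apply div_le_div_of_nonneg_right _ hη4.le
            refine hb.trans ?_
            have h4 : ((r : ℝ) - s) ^ 2 ≤ δ ^ 2 := by
              apply pow_le_pow_left₀ (by linarith)
              linarith
            calc C * ((r : ℝ) - s) ^ 2 ≤ |C| * ((r : ℝ) - s) ^ 2 :=
                  mul_le_mul_of_nonneg_right (le_abs_self C) (sq_nonneg _)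
              _ ≤ |C| * δ ^ 2 := mul_le_mul_of_nonneg_left h4 (abs_nonneg C)
    have h5 : 2 * K * ∫ ω, q r ω ∂P ≤ 2 * K * (|C| * δ ^ 2 / η ^ 4) :=
      mul_le_mul_of_nonneg_left h3 (by positivity)
    linarith
  -- bounded field for Fubini
  have hFm : Measurable (Function.uncurry fun (r : ℝ≥0) ω => ε / 2 + 2 * K * q r ω) :=
    measurable_const.add (measurable_const.mul hqm)
  have hFb : ∀ (r : ℝ≥0) ω, |ε / 2 + 2 * K * q r ω| ≤ ε / 2 + 2 * K * 1 := by
    intro r ω
    have h1 := mul_nonneg (mul_nonneg zero_le_two hK0) (hq0 r ω)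
    rw [abs_of_nonneg (by linarith)]
    have h2 := (le_abs_self _).trans (hq1 r ω)
    have h3 : 2 * K * q r ω ≤ 2 * K * 1 := mul_le_mul_of_nonneg_left h2 (by positivity)
    linarith
  have hFi := path_integrable (P := P) hFm hFb s t hst' A
  have hswap : ∫ ω in A, (∫ r in (s : ℝ)..t, (ε / 2 + 2 * K * q r.toNNReal ω)) ∂P
      ≤ ε * ((t : ℝ) - s) := by
    rw [← intervalIntegral_integral_swap (prod_integrable (P := P) hFm hFb s t A)]
    have h1 : IntervalIntegrable (fun r : ℝ => ∫ ω in A, (ε / 2 + 2 * K * q r.toNNReal ω) ∂P)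
        volume s t := by
      have h2 := (prod_integrable (P := P) hFm hFb s t A).integral_prod_left
      rw [intervalIntegrable_iff]
      exact h2
    calc ∫ r in (s : ℝ)..t, (∫ ω in A, (ε / 2 + 2 * K * q r.toNNReal ω) ∂P)
        ≤ ∫ _ in (s : ℝ)..t, ε := by
          refine intervalIntegral.integral_mono_on hst' h1 intervalIntegrable_const (fun r hr => ?_)
          have hr0 : 0 ≤ r := (NNReal.coe_nonneg s).trans hr.1
          apply hqe
          · rw [← NNReal.coe_le_coe, Real.coe_toNNReal r hr0]; exact hr.1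
          · rw [← NNReal.coe_le_coe, Real.coe_toNNReal r hr0]; exact hr.2
      _ = ε * ((t : ℝ) - s) := by
          rw [intervalIntegral.integral_const, smul_eq_mul, mul_comm]
  refine le_trans ?_ hswap
  rw [← Real.norm_eq_abs]
  refine norm_integral_le_of_norm_le hFi ?_
  refine (ae_restrict_iff' hA).mpr (Filter.Eventually.of_forall fun ω hω => ?_)
  rw [Real.norm_eq_abs]
  exact hpath ω hω

end H99.FL
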