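import Pool.Agent.H99.FL.IS3

set_option autoImplicit false

open MeasureTheory ProbabilityTheory Set Filter Topology
open scoped NNReal ENNReal

universe u

namespace H99.FL

open H5.FL

lemma norm_pow_four_le {N : ℕ} (a b : Fin N → ℝ) :
    ‖(a, b)‖ ^ 4 ≤ ∑ j, (a j ^ 4 + b j ^ 4) := by
  have hnn : ∀ j, 0 ≤ a j ^ 4 + b j ^ 4 := fun j => by positivity
  obtain ⟨S, hS⟩ : ∃ S, S = ∑ j, (a j ^ 4 + b j ^ 4) := ⟨_, rfl⟩
  have hS0 : 0 ≤ S := by rw [hS]; exact Finset.sum_nonneg fun j _ => hnn j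
  have hc0 : 0 ≤ S ^ ((4 : ℕ) : ℝ)⁻¹ := Real.rpow_nonneg hS0 _
  have hc4 : (S ^ ((4 : ℕ) : ℝ)⁻¹) ^ 4 = S := Real.rpow_inv_natCast_pow hS0 (by norm_num)
  rw [← hS, ← hc4]
  apply pow_le_pow_left₀ (norm_nonneg _)
  rw [Prod.norm_def]
  have key : ∀ j, a j ^ 4 + b j ^ 4 ≤ S := by
    intro j
    rw [hS]
    exact Finset.single_le_sum (f := fun j => a j ^ 4 + b j ^ 4) (fun j _ => hnn j)
      (Finset.mem_univ j)
  apply max_le
  · rw [pi_norm_le_iff_of_nonneg hc0]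
    intro j
    rw [Real.norm_eq_abs, ← pow_le_pow_iff_left₀ (abs_nonneg _) hc0 (by norm_num : 4 ≠ 0), hc4]
    have h1 : |a j| ^ 4 = a j ^ 4 := by rw [← abs_pow]; exact abs_of_nonneg (by positivity)
    rw [h1]
    have := key j
    have h2 : 0 ≤ b j ^ 4 := by positivity
    linarith
  · rw [pi_norm_le_iff_of_nonneg hc0]
    intro j
    rw [Real.norm_eq_abs, ← pow_le_pow_iff_left₀ (abs_nonneg _) hc0 (by norm_num : 4 ≠ 0), hc4]
    have h1 : |b j| ^ 4 = b j ^ 4 := by rw [← abs_pow]; exact abs_of_nonneg (by positivity)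
    rw [h1]
    have := key j
    have h2 : 0 ≤ a j ^ 4 := by positivity
    linarith

lemma clock_diff_bounds {N : ℕ} {Ω : Type u} [mΩ : MeasurableSpace Ω] (J : ℝ≥0 → Ω → Fin N)
    (hJ : Measurable fun p : ℝ≥0 × Ω => J p.1 p.2) (ω : Ω) (s t : ℝ≥0) (hst : s ≤ t) (j : Fin N) :
    0 ≤ clock J t ω j - clock J s ω j ∧ clock J t ω j - clock J s ω j ≤ (t : ℝ) - s := by
  have hst' : (s : ℝ) ≤ t := by exact_mod_cast hst
  rw [clock_diff J hJ]
  have hi := path_intervalIntegrable (F := fun (r : ℝ≥0) ω => if J r ω = j then (1 : ℝ) else 0)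
      (ind_meas J hJ j) (ind_le J j) s t ω
  constructor
  · apply intervalIntegral.integral_nonneg hst'
    intro r _
    split_ifs <;> norm_num
  · calc ∫ r in (s : ℝ)..t, (if J r.toNNReal ω = j then (1 : ℝ) else 0)
        ≤ ∫ _ in (s : ℝ)..t, (1 : ℝ) := by
          refine intervalIntegral.integral_mono_on hst' hi intervalIntegrable_const (fun r _ => ?_)
          split_ifs <;> norm_num
      _ = (t : ℝ) - s := by simp

lemma prog_full {N : ℕ} {μ : ℝ} {Ω : Type u} [mΩ : MeasurableSpace Ω] {P : Measure Ω}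
    (π : BPolicy N μ Ω P) : IsProgressive π.full π.J := by
  intro t
  refine (π.J_prog t).mono ?_ le_rfl
  exact sup_le_sup le_rfl (MeasurableSpace.comap_mono (π.obs_le t))

theorem mom (hIT2 : S_IT2.{u}) {N : ℕ} {μ : ℝ} {Ω : Type u} [mΩ : MeasurableSpace Ω]
    {P : Measure Ω} [IsProbabilityMeasure P] (π : BPolicy N μ Ω P) :
    ∀ s r : ℝ≥0, s ≤ r → (r : ℝ) ≤ s + 1 →
      Integrable (fun ω => ‖(π.X r ω, clock π.J r ω) - (π.X s ω, clock π.J s ω)‖ ^ 4) P ∧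
      ∫ ω, ‖(π.X r ω, clock π.J r ω) - (π.X s ω, clock π.J s ω)‖ ^ 4 ∂P
        ≤ (N * (25 + 8 * μ ^ 4)) * ((r : ℝ) - s) ^ 2 := by
  intro s r hsr hrs
  have hJ := H78.FL.J_joint π.obs π.J π.J_prog
  have hit := fun j => hIT2 N Ω P π.full π.W π.W_fbm π.J π.M (prog_full π) π.M_adapted π.M_ito s r
    hsr j j
  have hXm : ∀ r, Measurable (π.X r) := fun r => (π.X_adapted r).mono (π.obs.le r) le_rfl
  have hCm : ∀ r, Measurable (clock π.J r) := fun r =>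
    measurable_pi_lambda _ fun j => path_meas_clock π.J hJ r j
  have hsr' : (s : ℝ) ≤ r := by exact_mod_cast hsr
  obtain ⟨g, hg⟩ : ∃ g : Ω → ℝ, g = fun ω => ∑ j, (8 * (π.M r ω j - π.M s ω j) ^ 4
      + (8 * μ ^ 4 + 1) * ((r : ℝ) - s) ^ 2) := ⟨_, rfl⟩
  have h7 : ∀ j : Fin N, Integrable (fun ω => 8 * (π.M r ω j - π.M s ω j) ^ 4
      + (8 * μ ^ 4 + 1) * ((r : ℝ) - s) ^ 2) P := fun j =>
    ((hit j).1.const_mul 8).add (integrable_const _)
  have hgi : Integrable g P := by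
    rw [hg]
    exact integrable_finsetSum _ fun j _ => h7 j
  have hle : ∀ ω, ‖(π.X r ω, clock π.J r ω) - (π.X s ω, clock π.J s ω)‖ ^ 4 ≤ g ω := by
    intro ω
    have h1 := norm_pow_four_le (π.X r ω - π.X s ω) (clock π.J r ω - clock π.J s ω)
    rw [Prod.mk_sub_mk]
    refine h1.trans ?_
    rw [hg]
    refine Finset.sum_le_sum fun j _ => ?_
    simp only [Pi.sub_apply]
    obtain ⟨hc0, hc1⟩ := clock_diff_bounds π.J hJ ω s r hsr j
    obtain ⟨c, hc⟩ : ∃ c, c = clock π.J r ω j - clock π.J s ω j := ⟨_, rfl⟩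
    obtain ⟨m, hm⟩ : ∃ m, m = π.M r ω j - π.M s ω j := ⟨_, rfl⟩
    have hX : π.X r ω j - π.X s ω j = m + μ * (if π.jstar ω = j then c else 0) := by
      rw [π.X_eq, π.X_eq, hm, hc]
      split_ifs <;> ring
    rw [hX, ← hc, ← hm]
    rw [← hc] at hc0 hc1
    have hc2 : c ^ 2 ≤ ((r : ℝ) - s) ^ 2 := pow_le_pow_left₀ hc0 hc1 2
    have hc4 : c ^ 4 ≤ ((r : ℝ) - s) ^ 2 := by
      have h3 : c ^ 2 ≤ 1 := by nlinarith
      nlinarith [sq_nonneg c, sq_nonneg (c ^ 2)]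
    have hd : ∀ x y : ℝ, (x + y) ^ 4 ≤ 8 * x ^ 4 + 8 * y ^ 4 := by
      intro x y
      have e1 : (x + y) ^ 2 ≤ 2 * (x ^ 2 + y ^ 2) := by nlinarith [sq_nonneg (x - y)]
      have e2 : ((x + y) ^ 2) ^ 2 ≤ (2 * (x ^ 2 + y ^ 2)) ^ 2 :=
        pow_le_pow_left₀ (sq_nonneg _) e1 2
      nlinarith [sq_nonneg (x ^ 2 - y ^ 2)]
    have h4 : (μ * (if π.jstar ω = j then c else 0)) ^ 4 ≤ μ ^ 4 * ((r : ℝ) - s) ^ 2 := by
      split_ifs
      · rw [mul_pow]
        exact mul_le_mul_of_nonneg_left hc4 (by positivity)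
      · have h9 : (0 : ℝ) ≤ μ ^ 4 * ((r : ℝ) - s) ^ 2 := by positivity
        simpa using h9
    have h5 := hd m (μ * (if π.jstar ω = j then c else 0))
    nlinarith
  have hm1 : Measurable (fun ω => (π.X r ω, clock π.J r ω) - (π.X s ω, clock π.J s ω)) :=
    ((hXm r).prodMk (hCm r)).sub ((hXm s).prodMk (hCm s))
  have hint : Integrable (fun ω => ‖(π.X r ω, clock π.J r ω) - (π.X s ω, clock π.J s ω)‖ ^ 4) P := by
    refine hgi.mono' (hm1.norm.pow_const 4).aestronglyMeasurable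
      (Filter.Eventually.of_forall fun ω => ?_)
    rw [Real.norm_eq_abs, abs_of_nonneg (by positivity)]
    exact hle ω
  refine ⟨hint, (integral_mono hint hgi hle).trans ?_⟩
  have h6 : ∫ ω, g ω ∂P = ∑ j, (8 * ∫ ω, (π.M r ω j - π.M s ω j) ^ 4 ∂P
      + (8 * μ ^ 4 + 1) * ((r : ℝ) - s) ^ 2) := by
    rw [hg, integral_finsetSum _ fun j _ => h7 j]
    refine Finset.sum_congr rfl fun j _ => ?_
    rw [integral_add ((hit j).1.const_mul 8) (integrable_const _), integral_const_mul]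
    simp
  rw [h6]
  calc ∑ j, (8 * ∫ ω, (π.M r ω j - π.M s ω j) ^ 4 ∂P + (8 * μ ^ 4 + 1) * ((r : ℝ) - s) ^ 2)
      ≤ ∑ _j : Fin N, (25 + 8 * μ ^ 4) * ((r : ℝ) - s) ^ 2 := by
        refine Finset.sum_le_sum fun j _ => ?_
        have := (hit j).2.1
        nlinarith
    _ = (N * (25 + 8 * μ ^ 4)) * ((r : ℝ) - s) ^ 2 := by
        rw [Finset.sum_const, Finset.card_univ, Fintype.card_fin, nsmul_eq_mul]
        ring

end H99.FL
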